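import Mathlib

/-! The midpoint inequality behind the block lemma. -/

open Real

namespace Pool.Agent.H88FT

theorem mid_alg {X Y b c : ℝ} (hX : 0 ≤ X) (hb : 0 ≤ b) (_hc : 0 ≤ c) (hXY : X * Y = b * c)
    (hs : b + c ≤ X + Y) (h : X ≤ Y) : X ≤ b := by
  by_contra hcon
  push Not at hcon
  have h1 : 0 ≤ (X - b) * (X - c) := by nlinarith
  have h2 : 0 ≤ X - c := by
    by_contra h3
    push Not at h3
    nlinarith
  nlinarith [mul_nonneg hX (sub_nonneg.2 h), mul_nonneg hb h2, mul_pos (sub_pos.2 hcon) (lt_of_le_of_lt hb hcon)]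

theorem mid_pos {β γ c s : ℝ} (hβ : 0 ≤ β) (h1 : β ^ 2 + γ ^ 2 ≤ 1) (_hc : 0 ≤ c) (hs : 0 ≤ s) (hcs : c ^ 2 + s ^ 2 = 1)
    (h : |γ| * s ≤ β * c) : arcsin (β * c + γ * s) + arcsin (β * c - γ * s) ≤ 2 * arcsin β := by
  have hpi := pi_pos
  have hb : |γ * s| ≤ β * c := by rw [abs_mul, abs_of_nonneg hs]; exact h
  have hb' := abs_le.1 hb
  have hβ1 : β ≤ 1 := by nlinarith
  have hsq : (β * c + γ * s) ^ 2 ≤ 1 := by nlinarith [sq_nonneg (β * s - γ * c)]
  have hsq' : (β * c - γ * s) ^ 2 ≤ 1 := by nlinarith [sq_nonneg (β * s + γ * c)]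
  have u1 : β * c + γ * s ≤ 1 := by nlinarith
  have u2 : β * c - γ * s ≤ 1 := by nlinarith
  have n1 : 0 ≤ β * c + γ * s := by linarith [hb'.1]
  have n2 : 0 ≤ β * c - γ * s := by linarith [hb'.2]
  obtain ⟨A, hA⟩ : ∃ A, A = arcsin (β * c + γ * s) := ⟨_, rfl⟩
  obtain ⟨B, hB⟩ : ∃ B, B = arcsin (β * c - γ * s) := ⟨_, rfl⟩
  rw [← hA, ← hB]
  have hA0 : 0 ≤ A := by rw [hA]; exact arcsin_nonneg.2 n1
  have hB0 : 0 ≤ B := by rw [hB]; exact arcsin_nonneg.2 n2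
  have hA1 : A ≤ π / 2 := by rw [hA]; exact arcsin_le_pi_div_two _
  have hB1 : B ≤ π / 2 := by rw [hB]; exact arcsin_le_pi_div_two _
  have sA : sin A = β * c + γ * s := by rw [hA]; exact sin_arcsin (by linarith) u1
  have sB : sin B = β * c - γ * s := by rw [hB]; exact sin_arcsin (by linarith) u2
  have eA : A = (A + B) / 2 + (A - B) / 2 := by ring
  have eB : B = (A + B) / 2 - (A - B) / 2 := by ring
  obtain ⟨M, hM⟩ : ∃ M, M = (A + B) / 2 := ⟨_, rfl⟩
  obtain ⟨m, hm⟩ : ∃ m, m = (A - B) / 2 := ⟨_, rfl⟩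
  rw [← hM, ← hm] at eA eB
  have s1 : sin M * cos m = β * c := by
    have h1 := sA; have h2 := sB
    rw [eA, sin_add] at h1
    rw [eB, sin_sub] at h2
    linarith
  have s2 : cos M * sin m = γ * s := by
    have h1 := sA; have h2 := sB
    rw [eA, sin_add] at h1
    rw [eB, sin_sub] at h2
    linarith
  have hM0 : 0 ≤ M := by rw [hM]; linarith
  have hM1 : M ≤ π / 2 := by rw [hM]; linarith
  have hm1 : |m| ≤ π / 2 - M := by rw [hM, hm, abs_le]; constructor <;> linarith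
  have sM : 0 ≤ sin M := sin_nonneg_of_nonneg_of_le_pi hM0 (by linarith)
  have hYX : sin M ≤ cos m := by
    rw [← cos_abs m, ← cos_pi_div_two_sub]
    exact cos_le_cos_of_nonneg_of_le_pi (abs_nonneg _) (by linarith) hm1
  have goal1 : sin M ^ 2 ≤ β ^ 2 := by
    refine mid_alg (Y := cos m ^ 2) (c := c ^ 2) (sq_nonneg _) (sq_nonneg _) (sq_nonneg _) ?_ ?_ ?_
    · rw [← mul_pow, s1, mul_pow]
    · have e1 : (1 - sin M ^ 2) * (1 - cos m ^ 2) = γ ^ 2 * s ^ 2 := by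
        rw [← mul_pow, ← s2, mul_pow]
        have := sin_sq_add_cos_sq M
        have := sin_sq_add_cos_sq m
        have h3 : cos M ^ 2 = 1 - sin M ^ 2 := by linarith
        have h4 : sin m ^ 2 = 1 - cos m ^ 2 := by linarith
        rw [h3, h4]
      have e2 : sin M ^ 2 * cos m ^ 2 = β ^ 2 * c ^ 2 := by rw [← mul_pow, s1, mul_pow]
      have e3 : γ ^ 2 * s ^ 2 ≤ (1 - β ^ 2) * s ^ 2 := mul_le_mul_of_nonneg_right (by linarith) (sq_nonneg s)
      have e4 : s ^ 2 = 1 - c ^ 2 := by linarith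
      rw [e4] at e3 e1
      nlinarith
    · exact pow_le_pow_left₀ sM hYX 2
  have goal2 : sin M ≤ β := le_of_sq_le_sq goal1 hβ
  have goal3 : M ≤ arcsin β := by
    rw [le_arcsin_iff_sin_le' ⟨by linarith, hM1⟩]; exact goal2
  rw [hM] at goal3
  linarith

theorem mid_ineq {β γ c s : ℝ} (h1 : β ^ 2 + γ ^ 2 ≤ 1) (hc : 0 ≤ c) (hs : 0 ≤ s) (hcs : c ^ 2 + s ^ 2 = 1)
    (h : |γ| * s ≤ |β| * c) : arcsin |β * c + γ * s| + arcsin |β * c - γ * s| ≤ 2 * arcsin |β| := by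
  rcases le_total 0 β with hβ | hβ
  · rw [abs_of_nonneg hβ] at h ⊢
    have hb : |γ * s| ≤ β * c := by rw [abs_mul, abs_of_nonneg hs]; exact h
    have hb' := abs_le.1 hb
    rw [abs_of_nonneg (by linarith [hb'.1]), abs_of_nonneg (by linarith [hb'.2])]
    exact mid_pos hβ h1 hc hs hcs h
  · rw [abs_of_nonpos hβ] at h ⊢
    have hb : |γ * s| ≤ -β * c := by rw [abs_mul, abs_of_nonneg hs]; exact h
    have hb' := abs_le.1 hb
    rw [abs_of_nonpos (by linarith [hb'.2]), abs_of_nonpos (by linarith [hb'.1])]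
    have := mid_pos (β := -β) (γ := γ) (c := c) (s := s) (by linarith) (by nlinarith) hc hs hcs h
    have e1 : -(β * c + γ * s) = -β * c - γ * s := by ring
    have e2 : -(β * c - γ * s) = -β * c + γ * s := by ring
    rw [e1, e2]; linarith

end Pool.Agent.H88FT
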