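import Pool.Agent.H88FT.Base
import Pool.Agent.H88FT.Mid

/-! The block lemma: at a minimiser the vectors orthogonal to `x v` span the orthogonal complement of `x v`. -/

open Real Module

namespace Pool.Agent.H88FT

variable {E : Type} [NormedAddCommGroup E] [InnerProductSpace ℝ E]

theorem unit_comb {u z : E} (hu : ‖u‖ = 1) (hz : ‖z‖ = 1) (huz : inner ℝ u z = 0) {c s : ℝ} (h : c ^ 2 + s ^ 2 = 1) :
    ‖c • u + s • z‖ = 1 := by
  have h1 : ‖c • u + s • z‖ ^ 2 = 1 := by
    rw [norm_add_sq_real, norm_smul, norm_smul, hu, hz, inner_smul_left, inner_smul_right, huz]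
    simp only [Real.norm_eq_abs, mul_one, sq_abs, mul_zero, add_zero]
    exact h
  have h2 := norm_nonneg (c • u + s • z)
  nlinarith

theorem bessel2 {u z y : E} (hu : ‖u‖ = 1) (hz : ‖z‖ = 1) (huz : inner ℝ u z = 0) (hy : ‖y‖ = 1) :
    (inner ℝ u y) ^ 2 + (inner ℝ z y) ^ 2 ≤ 1 := by
  have h : 0 ≤ inner ℝ (y - (inner ℝ u y) • u - (inner ℝ z y) • z) (y - (inner ℝ u y) • u - (inner ℝ z y) • z) :=
    real_inner_self_nonneg
  have huz' : inner ℝ z u = 0 := by rw [real_inner_comm]; exact huz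
  have e1 : inner ℝ u u = 1 := by rw [real_inner_self_eq_norm_sq, hu]; norm_num
  have e2 : inner ℝ z z = 1 := by rw [real_inner_self_eq_norm_sq, hz]; norm_num
  have e3 : inner ℝ y y = 1 := by rw [real_inner_self_eq_norm_sq, hy]; norm_num
  simp only [inner_sub_left, inner_sub_right, inner_smul_left, inner_smul_right, huz, huz', e1, e2, e3,
    conj_trivial, real_inner_comm u y, real_inner_comm z y] at h
  nlinarith

open Classical in
theorem nz_lt {x y : ℕ → E} {S : Finset ℕ} (h : ∀ i ∈ S, ∀ j ∈ S, inner ℝ (x i) (x j) = 0 → inner ℝ (y i) (y j) = 0)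
    {a b : ℕ} (ha : a ∈ S) (hb : b ∈ S) (hx : inner ℝ (x a) (x b) ≠ 0) (hy : inner ℝ (y a) (y b) = 0) :
    nz y S < nz x S := by
  unfold nz
  apply Finset.card_lt_card
  rw [Finset.ssubset_iff_of_subset]
  · refine ⟨(a, b), ?_, ?_⟩
    · simp only [Finset.mem_filter, Finset.mem_product]
      exact ⟨⟨ha, hb⟩, hx⟩
    · simp only [Finset.mem_filter, Finset.mem_product, not_and, not_not]
      exact fun _ => hy
  · intro p hp
    simp only [Finset.mem_filter, Finset.mem_product] at hp ⊢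
    exact ⟨hp.1, fun h0 => hp.2 (h p.1 hp.1.1 p.2 hp.1.2 h0)⟩

theorem T2_update (x : ℕ → E) {S : Finset ℕ} {v : ℕ} (hv : v ∈ S) (u : E) :
    T2 (Function.update x v u) S = T2 x (S.erase v) + 2 * ∑ j ∈ S.erase v, tau u (x j) := by
  rw [T2_erase _ hv, ← DD_erase_self _ hv]
  congr 1
  · apply T2_congr
    intro i hi
    rw [Function.update_of_ne (Finset.ne_of_mem_erase hi)]
  · congr 1
    unfold DD
    refine Finset.sum_congr rfl fun j hj => ?_
    have hj' := Finset.ne_of_mem_erase hj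
    rw [ee_of_ne _ hj'.symm, Function.update_self, Function.update_of_ne hj']

/-- no isolated vertices -/
def NoIso (x : ℕ → E) (S : Finset ℕ) : Prop := ∀ v ∈ S, ∃ j ∈ S, j ≠ v ∧ inner ℝ (x v) (x j) ≠ 0

open Classical in
theorem block_unit {x : ℕ → E} {S : Finset ℕ} (hunit : ∀ i, ‖x i‖ = 1)
    (hmin : ∀ y : ℕ → E, (∀ i, ‖y i‖ = 1) → T2 x S ≤ T2 y S)
    (horth : ∀ y : ℕ → E, (∀ i, ‖y i‖ = 1) → T2 y S = T2 x S → nz x S ≤ nz y S) (hiso : NoIso x S)
    {v : ℕ} (hv : v ∈ S) {z : E} (hz : ‖z‖ = 1) (hzv : inner ℝ (x v) z = 0) :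
    ∃ j ∈ S, j ≠ v ∧ inner ℝ (x v) (x j) = 0 ∧ inner ℝ z (x j) ≠ 0 := by
  by_contra hcon
  push Not at hcon
  obtain ⟨N, hN⟩ : ∃ N : Finset ℕ, N = (S.erase v).filter fun j => inner ℝ (x v) (x j) ≠ 0 := ⟨_, rfl⟩
  have hNne : N.Nonempty := by
    obtain ⟨j, hj1, hj2, hj3⟩ := hiso v hv
    exact ⟨j, by rw [hN]; exact Finset.mem_filter.2 ⟨Finset.mem_erase.2 ⟨hj2, hj1⟩, hj3⟩⟩
  let b : ℕ → ℝ := fun j => inner ℝ (x v) (x j)
  let g : ℕ → ℝ := fun j => inner ℝ z (x j)
  obtain ⟨j0, hj0, hq⟩ := Finset.exists_min_image N (fun j => b j ^ 2 / (b j ^ 2 + g j ^ 2)) hNne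
  have hb0 : b j0 ≠ 0 := by rw [hN] at hj0; exact (Finset.mem_filter.1 hj0).2
  have hj0S : j0 ∈ S.erase v := by rw [hN] at hj0; exact (Finset.mem_filter.1 hj0).1
  have hbp : 0 < b j0 ^ 2 := by positivity
  obtain ⟨q, hqd⟩ : ∃ q, q = b j0 ^ 2 / (b j0 ^ 2 + g j0 ^ 2) := ⟨_, rfl⟩
  have hden : 0 < b j0 ^ 2 + g j0 ^ 2 := by positivity
  have hq0 : 0 < q := by rw [hqd]; positivity
  have hq1 : q ≤ 1 := by rw [hqd, div_le_one hden]; linarith [sq_nonneg (g j0)]
  have hqe : q * (b j0 ^ 2 + g j0 ^ 2) = b j0 ^ 2 := by rw [hqd]; field_simp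
  obtain ⟨s, hs0, hs⟩ : ∃ s : ℝ, 0 ≤ s ∧ s ^ 2 = q := ⟨√q, sqrt_nonneg _, sq_sqrt hq0.le⟩
  obtain ⟨c, hc0, hc⟩ : ∃ c : ℝ, 0 ≤ c ∧ c ^ 2 = 1 - q := ⟨√(1 - q), sqrt_nonneg _, sq_sqrt (by linarith)⟩
  have hcs : c ^ 2 + s ^ 2 = 1 := by rw [hc, hs]; ring
  have hcs' : c ^ 2 + (-s) ^ 2 = 1 := by rw [neg_sq]; exact hcs
  have hzero : ∀ j ∈ S.erase v, b j = 0 → g j = 0 := fun j hj hj0 =>
    hcon j (Finset.mem_of_mem_erase hj) (Finset.ne_of_mem_erase hj) hj0
  have hkey : ∀ j ∈ S.erase v, |g j| * s ≤ |b j| * c := by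
    intro j hj
    by_cases hbj : b j = 0
    · rw [hzero j hj hbj, hbj]; simp
    · have hjN : j ∈ N := by rw [hN]; exact Finset.mem_filter.2 ⟨hj, hbj⟩
      have h1 := hq j hjN
      rw [← hqd] at h1
      have hbp : 0 < b j ^ 2 := by positivity
      rw [le_div_iff₀ (by positivity)] at h1
      have h2 : (|g j| * s) ^ 2 ≤ (|b j| * c) ^ 2 := by
        rw [mul_pow, mul_pow, sq_abs, sq_abs, hs, hc]; linarith
      exact le_of_sq_le_sq h2 (mul_nonneg (abs_nonneg _) hc0)
  have hmid : ∀ j ∈ S.erase v, tau (c • x v + s • z) (x j) + tau (c • x v + (-s) • z) (x j) ≤ 2 * tau (x v) (x j) := by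
    intro j hj
    have h1 := mid_ineq (β := b j) (γ := g j) (c := c) (s := s) (bessel2 (hunit v) hz hzv (hunit j)) hc0 hs0 hcs
      (hkey j hj)
    unfold tau
    rw [inner_add_left, inner_add_left, inner_smul_left, inner_smul_left, inner_smul_left]
    simp only [conj_trivial]
    have e1 : c * inner ℝ (x v) (x j) + s * inner ℝ z (x j) = b j * c + g j * s := by simp only [b, g]; ring
    have e2 : c * inner ℝ (x v) (x j) + -s * inner ℝ z (x j) = b j * c - g j * s := by simp only [b, g]; ring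
    rw [e1, e2]
    exact h1
  have hu1 : ‖c • x v + s • z‖ = 1 := unit_comb (hunit v) hz hzv hcs
  have hu2 : ‖c • x v + (-s) • z‖ = 1 := unit_comb (hunit v) hz hzv hcs'
  have hU : ∀ u : E, ‖u‖ = 1 → ∀ i, ‖Function.update x v u i‖ = 1 := by
    intro u hu i
    by_cases hi : i = v
    · rw [hi, Function.update_self]; exact hu
    · rw [Function.update_of_ne hi]; exact hunit i
  have hx : T2 x S = T2 x (S.erase v) + 2 * ∑ j ∈ S.erase v, tau (x v) (x j) := by
    have := T2_update x hv (x v)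
    rwa [Function.update_eq_self] at this
  have h1 := hmin _ (hU _ hu1)
  have h2 := hmin _ (hU _ hu2)
  have hsum : ∑ j ∈ S.erase v, tau (c • x v + s • z) (x j) + ∑ j ∈ S.erase v, tau (c • x v + (-s) • z) (x j) ≤
      2 * ∑ j ∈ S.erase v, tau (x v) (x j) := by
    rw [← Finset.sum_add_distrib, Finset.mul_sum]
    exact Finset.sum_le_sum hmid
  have h1' := T2_update x hv (c • x v + s • z)
  have h2' := T2_update x hv (c • x v + (-s) • z)
  have hE1 : T2 (Function.update x v (c • x v + s • z)) S = T2 x S := by linarith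
  have hE2 : T2 (Function.update x v (c • x v + (-s) • z)) S = T2 x S := by linarith
  -- new orthogonal pair
  have hnew : ∀ σ : ℝ, b j0 * c + g j0 * σ = 0 →
      nz (Function.update x v (c • x v + σ • z)) S < nz x S := by
    intro σ hσ
    have hval : ∀ j ∈ S, j ≠ v → inner ℝ (Function.update x v (c • x v + σ • z) v)
        (Function.update x v (c • x v + σ • z) j) = b j * c + g j * σ := by
      intro j _ hj
      rw [Function.update_self, Function.update_of_ne hj, inner_add_left, inner_smul_left, inner_smul_left]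
      simp only [conj_trivial, b, g]; ring
    have hj0v := Finset.ne_of_mem_erase hj0S
    refine nz_lt (a := v) (b := j0) ?_ hv (Finset.mem_of_mem_erase hj0S) hb0 ?_
    · intro i hi j hj hij
      by_cases hiv : i = v
      · by_cases hjv : j = v
        · rw [hiv, hjv, real_inner_self_eq_norm_sq, hunit v] at hij
          norm_num at hij
        · rw [hiv] at hij ⊢
          rw [hval j hj hjv]
          have h3 : b j = 0 := hij
          rw [h3, hzero j (Finset.mem_erase.2 ⟨hjv, hj⟩) h3]; ring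
      · by_cases hjv : j = v
        · rw [hjv] at hij ⊢
          rw [real_inner_comm, hval i hi hiv]
          have h3 : b i = 0 := by rw [real_inner_comm] at hij; exact hij
          rw [h3, hzero i (Finset.mem_erase.2 ⟨hiv, hi⟩) h3]; ring
        · rw [Function.update_of_ne hiv, Function.update_of_ne hjv]; exact hij
    · rw [hval j0 (Finset.mem_of_mem_erase hj0S) hj0v]; exact hσ
  have hsq : (b j0 * c) ^ 2 = (g j0 * s) ^ 2 := by
    rw [mul_pow, mul_pow, hs, hc]; linarith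
  rcases sq_eq_sq_iff_eq_or_eq_neg.1 hsq with h3 | h3
  · have h4 := hnew (-s) (by rw [h3]; ring)
    have h5 := horth _ (hU _ hu2) hE2
    omega
  · have h4 := hnew s (by rw [h3]; ring)
    have h5 := horth _ (hU _ hu1) hE1
    omega

end Pool.Agent.H88FT
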