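import Mathlib

/-! Second order expansions at `0`. -/

open Real Filter Topology Asymptotics

namespace Pool.Agent.H88FT

/-- `F t = a + b t + c t^2 + o(t^2)` -/
def Exp2 (F : ℝ → ℝ) (a b c : ℝ) : Prop := (fun t => F t - (a + b * t + c * t ^ 2)) =o[𝓝 0] fun t => t ^ 2

variable {F G : ℝ → ℝ} {a b c a' b' c' : ℝ}

theorem Exp2.congr (h : Exp2 F a b c) (hFG : ∀ᶠ t in 𝓝 0, F t = G t) : Exp2 G a b c := by
  refine IsLittleO.congr' h ?_ EventuallyEq.rfl
  filter_upwards [hFG] with t ht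
  rw [ht]

theorem pow_o (m : ℕ) (hm : 2 < m) : (fun t : ℝ => t ^ m) =o[𝓝 0] fun t => t ^ 2 :=
  isLittleO_pow_pow hm

theorem exp2_poly (a b c d e : ℝ) : Exp2 (fun t => a + b * t + c * t ^ 2 + d * t ^ 3 + e * t ^ 4) a b c := by
  unfold Exp2
  have h : (fun t : ℝ => d * t ^ 3 + e * t ^ 4) =o[𝓝 0] fun t => t ^ 2 :=
    ((pow_o 3 (by norm_num)).const_mul_left d).add ((pow_o 4 (by norm_num)).const_mul_left e)
  refine h.congr_left fun t => ?_
  ring

theorem Exp2.add (hF : Exp2 F a b c) (hG : Exp2 G a' b' c') :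
    Exp2 (fun t => F t + G t) (a + a') (b + b') (c + c') := by
  unfold Exp2 at *
  refine (hF.add hG).congr_left fun t => ?_
  ring

theorem exp2_zero : Exp2 (fun _ => 0) 0 0 0 := by
  have := exp2_poly 0 0 0 0 0
  exact this.congr (Eventually.of_forall fun t => by ring)

theorem exp2_sum {ι : Type*} (S : Finset ι) (F : ι → ℝ → ℝ) (a b c : ι → ℝ) (h : ∀ i ∈ S, Exp2 (F i) (a i) (b i) (c i)) :
    Exp2 (fun t => ∑ i ∈ S, F i t) (∑ i ∈ S, a i) (∑ i ∈ S, b i) (∑ i ∈ S, c i) := by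
  classical
  induction S using Finset.induction_on with
  | empty => simpa using exp2_zero
  | insert i S hi ih =>
    simp only [Finset.sum_insert hi]
    exact (h i (Finset.mem_insert_self _ _)).add (ih fun j hj => h j (Finset.mem_insert_of_mem hj))

theorem Exp2.tendsto (h : Exp2 F a b c) : Tendsto F (𝓝 0) (𝓝 a) := by
  have h1 : Tendsto (fun t : ℝ => t ^ 2) (𝓝 0) (𝓝 0) := by
    have : Continuous fun t : ℝ => t ^ 2 := by fun_prop
    simpa using this.tendsto 0
  have h2 : Tendsto (fun t => F t - (a + b * t + c * t ^ 2)) (𝓝 0) (𝓝 0) := h.isBigO.trans_tendsto h1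
  have h3 : Tendsto (fun t : ℝ => a + b * t + c * t ^ 2) (𝓝 0) (𝓝 a) := by
    have : Continuous fun t : ℝ => a + b * t + c * t ^ 2 := by fun_prop
    simpa using this.tendsto 0
  have h4 := h2.add h3
  simpa using h4

theorem Exp2.mul (hF : Exp2 F a b c) (hG : Exp2 G a' b' c') :
    Exp2 (fun t => F t * G t) (a * a') (a * b' + b * a') (a * c' + b * b' + c * a') := by
  have hF1 : F =O[𝓝 0] fun _ => (1 : ℝ) := hF.tendsto.isBigO_one ℝ
  have hp : Tendsto (fun t : ℝ => a' + b' * t + c' * t ^ 2) (𝓝 0) (𝓝 a') := by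
    have : Continuous fun t : ℝ => a' + b' * t + c' * t ^ 2 := by fun_prop
    simpa using this.tendsto 0
  have hp1 : (fun t : ℝ => a' + b' * t + c' * t ^ 2) =O[𝓝 0] fun _ => (1 : ℝ) := hp.isBigO_one ℝ
  have h1 := hF1.mul_isLittleO hG
  have h2 := hF.mul_isBigO hp1
  have h3 : (fun t : ℝ => (b * c' + c * b') * t ^ 3 + (c * c') * t ^ 4) =o[𝓝 0] fun t => t ^ 2 :=
    ((pow_o 3 (by norm_num)).const_mul_left _).add ((pow_o 4 (by norm_num)).const_mul_left _)
  simp only [one_mul] at h1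
  simp only [mul_one] at h2
  refine ((h1.add h2).add h3).congr_left fun t => ?_
  ring

theorem Exp2.sub_const (hF : Exp2 F a b c) : Exp2 (fun t => F t - a) 0 b c := by
  unfold Exp2 at *
  refine hF.congr_left fun t => ?_
  ring

theorem Exp2.isBigO (hF : Exp2 F 0 b c) : F =O[𝓝 0] fun t => t := by
  have h1 : (fun t : ℝ => t ^ 2) =O[𝓝 0] fun t => t := by
    have : (fun t : ℝ => t ^ 2) =o[𝓝 0] fun t => t ^ 1 := isLittleO_pow_pow (by norm_num)
    simpa using this.isBigO
  have h2 : (fun t : ℝ => 0 + b * t + c * t ^ 2) =O[𝓝 0] fun t => t := by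
    have h3 : (fun t : ℝ => b * t) =O[𝓝 0] fun t => t := (isBigO_refl _ _).const_mul_left b
    refine (h3.add (h1.const_mul_left c)).congr_left fun t => ?_
    ring
  have h3 := (IsLittleO.isBigO hF).trans h1
  refine (h3.add h2).congr_left fun t => ?_
  ring

theorem Exp2.comp {H : ℝ → ℝ} {g0 g1 g2 : ℝ} (hF : Exp2 F a b c) (hH : Exp2 (fun h => H (a + h)) g0 g1 g2) :
    Exp2 (fun t => H (F t)) g0 (g1 * b) (g1 * c + g2 * b ^ 2) := by
  have hu := hF.sub_const
  have hut : Tendsto (fun t => F t - a) (𝓝 0) (𝓝 0) := hu.tendsto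
  have h1 := IsLittleO.comp_tendsto hH hut
  have h2 : (fun t => (F t - a) ^ 2) =O[𝓝 0] fun t => t ^ 2 := hu.isBigO.pow 2
  have h3 := h1.trans_isBigO h2
  have h4 := hu.mul hu
  unfold Exp2 at h4 hu ⊢
  refine ((h3.add (hu.const_mul_left g1)).add (h4.const_mul_left g2)).congr_left fun t => ?_
  simp only [Function.comp]
  rw [add_sub_cancel]
  ring

/-- Taylor expansion of order two -/
theorem exp2_taylor {H g : ℝ → ℝ} {x g' : ℝ} (h1 : ∀ᶠ y in 𝓝 x, HasDerivAt H (g y) y) (h2 : HasDerivAt g g' x) :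
    Exp2 (fun h => H (x + h)) (H x) (g x) (g' / 2) := by
  unfold Exp2
  rw [isLittleO_iff]
  intro ε hε
  have h3 : ∀ᶠ y in 𝓝 x, ‖g y - g x - (y - x) * g'‖ ≤ ε * ‖y - x‖ := by
    have := (hasDerivAt_iff_isLittleO.1 h2)
    have h4 := isLittleO_iff.1 this hε
    simpa [smul_eq_mul] using h4
  obtain ⟨δ, hδ, hb⟩ := Metric.eventually_nhds_iff_ball.1 (h1.and h3)
  have hball : ∀ᶠ h : ℝ in 𝓝 0, h ∈ Metric.ball (0 : ℝ) δ := Metric.ball_mem_nhds _ hδ
  filter_upwards [hball] with h hh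
  rw [Metric.mem_ball, dist_zero_right, Real.norm_eq_abs] at hh
  -- mean value inequality on the ball of radius `|h|`
  let R : ℝ → ℝ := fun u => H (x + u) - (H x + g x * u + g' / 2 * u ^ 2)
  have hR : ∀ u ∈ Set.Icc (-|h|) |h|, HasDerivWithinAt R (g (x + u) - (g x + g' * u)) (Set.Icc (-|h|) |h|) u := by
    intro u hu
    have hu' : |u| ≤ |h| := abs_le.2 hu
    have hmem : x + u ∈ Metric.ball x δ := by
      rw [Metric.mem_ball, dist_eq_norm, add_sub_cancel_left, Real.norm_eq_abs]; linarith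
    have hd := (hb _ hmem).1
    have hd2 : HasDerivAt (fun u => H (x + u)) (g (x + u)) u := by
      have := hd.comp_const_add x u
      exact this
    have hd3 : HasDerivAt (fun u => H x + g x * u + g' / 2 * u ^ 2) (g x + g' * u) u := by
      have e1 : HasDerivAt (fun u => g x * u) (g x) u := by simpa using (hasDerivAt_id u).const_mul (g x)
      have e2 : HasDerivAt (fun u : ℝ => g' / 2 * u ^ 2) (g' * u) u := by
        have := (hasDerivAt_pow 2 u).const_mul (g' / 2)
        refine this.congr_deriv ?_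
        push_cast
        ring
      have e3 := (e1.const_add (H x)).add e2
      exact e3
    exact (hd2.sub hd3).hasDerivWithinAt
  have hbound : ∀ u ∈ Set.Icc (-|h|) |h|, ‖g (x + u) - (g x + g' * u)‖ ≤ ε * |h| := by
    intro u hu
    have hu' : |u| ≤ |h| := abs_le.2 hu
    have hmem : x + u ∈ Metric.ball x δ := by
      rw [Metric.mem_ball, dist_eq_norm, add_sub_cancel_left, Real.norm_eq_abs]; linarith
    have hd := (hb _ hmem).2
    rw [add_sub_cancel_left] at hd
    have e : g (x + u) - (g x + g' * u) = g (x + u) - g x - u * g' := by ring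
    rw [e]
    refine hd.trans ?_
    rw [Real.norm_eq_abs]
    exact mul_le_mul_of_nonneg_left hu' hε.le
  have hmv := (convex_Icc (-|h|) |h|).norm_image_sub_le_of_norm_hasDerivWithin_le hR hbound
    (x := 0) (y := h) ⟨by linarith [abs_nonneg h], abs_nonneg h⟩ (abs_le.1 le_rfl)
  have hR0 : R 0 = 0 := by simp [R]
  rw [hR0, sub_zero, sub_zero] at hmv
  refine hmv.trans (le_of_eq ?_)
  rw [Real.norm_eq_abs, Real.norm_eq_abs, abs_pow]
  ring

theorem exp2_arcsin {s : ℝ} (hs : |s| < 1) : Exp2 (fun h => arcsin (s + h)) (arcsin s) (√(1 - s ^ 2))⁻¹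
    (s / (2 * (1 - s ^ 2) * √(1 - s ^ 2))) := by
  have hs' := abs_lt.1 hs
  have h1 : ∀ᶠ y in 𝓝 s, HasDerivAt arcsin ((√(1 - y ^ 2))⁻¹) y := by
    have : Set.Ioo (-1 : ℝ) 1 ∈ 𝓝 s := Ioo_mem_nhds hs'.1 hs'.2
    filter_upwards [this] with y hy
    have := hasDerivAt_arcsin (x := y) (by linarith [hy.1]) (by linarith [hy.2])
    rwa [one_div] at this
  have hpos : 0 < 1 - s ^ 2 := by
    have := (sq_lt_one_iff_abs_lt_one _).2 hs
    linarith
  have h2 : HasDerivAt (fun y : ℝ => (√(1 - y ^ 2))⁻¹) (s / ((1 - s ^ 2) * √(1 - s ^ 2))) s := by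
    have e1 : HasDerivAt (fun y : ℝ => 1 - y ^ 2) (-(2 * s)) s := by
      have := (hasDerivAt_pow 2 s).const_sub 1
      simpa using this
    have e2 := (e1.sqrt hpos.ne').inv (sqrt_pos.2 hpos).ne'
    refine e2.congr_deriv ?_
    rw [sq_sqrt hpos.le]
    have : √(1 - s ^ 2) ≠ 0 := (sqrt_pos.2 hpos).ne'
    field_simp
  have h3 := exp2_taylor h1 h2
  convert h3 using 1
  have : √(1 - s ^ 2) ≠ 0 := (sqrt_pos.2 hpos).ne'
  field_simp

theorem Exp2.abs (h : Exp2 F a b c) (ha : a ≠ 0) : Exp2 (fun t => |F t|) |a| (a / |a| * b) (a / |a| * c) := by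
  have ht := h.tendsto
  rcases lt_or_gt_of_ne ha with h0 | h0
  · have e : a / |a| = -1 := by rw [abs_of_neg h0]; field_simp
    rw [e, abs_of_neg h0]
    have h1 : Exp2 (fun t => -F t) (-a) (-1 * b) (-1 * c) := by
      unfold Exp2 at *
      refine h.neg_left.congr_left fun t => ?_
      ring
    refine h1.congr ?_
    filter_upwards [ht.eventually_lt_const h0] with t ht
    rw [abs_of_neg ht]
  · have e : a / |a| = 1 := by rw [abs_of_pos h0]; field_simp
    rw [e, abs_of_pos h0, one_mul, one_mul]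
    refine h.congr ?_
    filter_upwards [ht.eventually_const_lt h0] with t ht
    rw [abs_of_pos ht]

theorem Exp2.arcsin_abs (h : Exp2 F a b c) (ha : a ≠ 0) (ha1 : |a| < 1) :
    Exp2 (fun t => arcsin |F t|) (arcsin |a|) ((√(1 - a ^ 2))⁻¹ * (a / |a| * b))
      ((√(1 - a ^ 2))⁻¹ * (a / |a| * c) + |a| / (2 * (1 - a ^ 2) * √(1 - a ^ 2)) * b ^ 2) := by
  have h1 := (h.abs ha).comp (exp2_arcsin (s := |a|) (by rwa [abs_abs]))
  rw [sq_abs] at h1
  have e : (a / |a| * b) ^ 2 = b ^ 2 := by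
    rw [mul_pow, div_pow, sq_abs, div_self (pow_ne_zero 2 ha), one_mul]
  rwa [e] at h1

theorem Exp2.arcsin_abs_zero (h : Exp2 F 0 0 0) : Exp2 (fun t => arcsin |F t|) 0 0 0 := by
  have h0 : F =o[𝓝 0] fun t => t ^ 2 := by
    unfold Exp2 at h
    refine h.congr_left fun t => ?_
    ring
  have h1 : (fun y => arcsin y - arcsin 0) =O[𝓝 0] fun y => y - 0 :=
    (hasDerivAt_arcsin (x := 0) (by norm_num) (by norm_num)).isBigO_sub
  simp only [arcsin_zero, sub_zero] at h1
  have h2 : Tendsto (fun t => |F t|) (𝓝 0) (𝓝 0) := by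
    have := h.tendsto.abs
    simpa using this
  have h3 := h1.comp_tendsto h2
  have h4 : (fun t => |F t|) =O[𝓝 0] F := by
    simpa using (isBigO_refl F (𝓝 0)).norm_left
  have h5 := (h3.trans h4).trans_isLittleO h0
  unfold Exp2
  refine h5.congr_left fun t => ?_
  simp [Function.comp]

/-- a local minimum has nonnegative second order coefficient -/
theorem Exp2.nonneg (h : Exp2 F a b c) (hmin : ∀ᶠ t in 𝓝 0, a ≤ F t) : 0 ≤ c := by
  by_contra hc
  push Not at hc
  have hneg : Tendsto (fun t : ℝ => -t) (𝓝 0) (𝓝 0) := by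
    simpa using (continuous_neg (G := ℝ)).tendsto 0
  have h1 := IsLittleO.comp_tendsto h hneg
  have h2 : (fun t => (F t - (a + b * t + c * t ^ 2)) + (F (-t) - (a + b * (-t) + c * (-t) ^ 2))) =o[𝓝 0]
      fun t : ℝ => t ^ 2 := by
    refine IsLittleO.add h ?_
    refine h1.congr (fun t => rfl) fun t => ?_
    simp [Function.comp]
  have h3 := isLittleO_iff.1 h2 (show 0 < -c by linarith)
  have h4 : ∀ᶠ t : ℝ in 𝓝[≠] 0, False := by
    filter_upwards [nhdsWithin_le_nhds h3, nhdsWithin_le_nhds hmin, nhdsWithin_le_nhds (hneg.eventually hmin),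
      self_mem_nhdsWithin] with t h5 h6 h7 h8
    have h9 : 0 < t ^ 2 := by
      have h8' : t ≠ 0 := h8
      positivity
    rw [Real.norm_eq_abs, Real.norm_eq_abs, abs_of_pos h9] at h5
    have h10 := (abs_le.1 h5).2
    nlinarith
  exact h4.exists.elim fun _ h => h

end Pool.Agent.H88FT
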