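import Pool.Agent.H88FT.Base
import Pool.Agent.H88FT.Exp

/-! Second variation of the sum of the complementary angles. -/

open Real Filter Topology Asymptotics

namespace Pool.Agent.H88FT

variable {E : Type} [NormedAddCommGroup E] [InnerProductSpace ℝ E]

theorem Exp2.comp_flat {F H : ℝ → ℝ} {a h' : ℝ} (hF : Exp2 F a 0 0) (hH : HasDerivAt H h' a) :
    Exp2 (fun t => H (F t)) (H a) 0 0 := by
  have h1 : (fun y => H y - H a) =O[𝓝 a] fun y => y - a := hH.isBigO_sub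
  have h2 := h1.comp_tendsto hF.tendsto
  have h3 : (fun t => F t - a) =o[𝓝 0] fun t => t ^ 2 := by
    unfold Exp2 at hF
    refine hF.congr_left fun t => ?_
    ring
  have h4 := h2.trans_isLittleO (g := fun t => F t - a) (k := fun t : ℝ => t ^ 2) (by simpa [Function.comp] using h3)
  unfold Exp2
  refine h4.congr_left fun t => ?_
  simp [Function.comp]

/-- quadratic curve -/
def cur (x a b : E) (t : ℝ) : E := x + t • a + t ^ 2 • b

theorem inner_cur (x a b x' a' b' : E) (t : ℝ) : inner ℝ (cur x a b t) (cur x' a' b' t) =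
    inner ℝ x x' + (inner ℝ a x' + inner ℝ x a') * t + (inner ℝ a a' + inner ℝ b x' + inner ℝ x b') * t ^ 2 +
      (inner ℝ a b' + inner ℝ b a') * t ^ 3 + inner ℝ b b' * t ^ 4 := by
  unfold cur
  simp only [inner_add_left, inner_add_right, inner_smul_left, inner_smul_right, conj_trivial]
  ring

theorem exp2_inner_cur (x a b x' a' b' : E) : Exp2 (fun t => inner ℝ (cur x a b t) (cur x' a' b' t))
    (inner ℝ x x') (inner ℝ a x' + inner ℝ x a') (inner ℝ a a' + inner ℝ b x' + inner ℝ x b') :=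
  (exp2_poly _ _ _ (inner ℝ a b' + inner ℝ b a') (inner ℝ b b')).congr
    (Eventually.of_forall fun t => (inner_cur x a b x' a' b' t).symm)

theorem exp2_norm_cur {x a b : E} (hx : ‖x‖ = 1) (ha : inner ℝ x a = 0) (hb : inner ℝ x b = -(inner ℝ a a) / 2) :
    Exp2 (fun t => ‖cur x a b t‖⁻¹) 1 0 0 := by
  have h1 := exp2_inner_cur x a b x a b
  have e1 : inner ℝ x x = (1 : ℝ) := by rw [real_inner_self_eq_norm_sq, hx]; norm_num
  have e2 : inner ℝ a x + inner ℝ x a = (0 : ℝ) := by rw [real_inner_comm, ha]; ring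
  have e3 : inner ℝ a a + inner ℝ b x + inner ℝ x b = (0 : ℝ) := by rw [real_inner_comm x b, hb]; ring
  rw [e1, e2, e3] at h1
  have h2 : HasDerivAt (fun y : ℝ => (√y)⁻¹) (-(1 / (2 * √1)) / √1 ^ 2) 1 :=
    (hasDerivAt_sqrt (by norm_num : (1 : ℝ) ≠ 0)).inv (by norm_num)
  have h3 := h1.comp_flat h2
  simp only [sqrt_one, inv_one] at h3
  refine h3.congr (Eventually.of_forall fun t => ?_)
  rw [real_inner_self_eq_norm_sq, sqrt_sq (norm_nonneg _)]

/-- normalised quadratic curve -/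
noncomputable def ncur (x a b : E) (t : ℝ) : E := ‖cur x a b t‖⁻¹ • cur x a b t

theorem exp2_inner_ncur {x a b x' a' b' : E} (hx : ‖x‖ = 1) (ha : inner ℝ x a = 0)
    (hb : inner ℝ x b = -(inner ℝ a a) / 2) (hx' : ‖x'‖ = 1) (ha' : inner ℝ x' a' = 0)
    (hb' : inner ℝ x' b' = -(inner ℝ a' a') / 2) :
    Exp2 (fun t => inner ℝ (ncur x a b t) (ncur x' a' b' t))
    (inner ℝ x x') (inner ℝ a x' + inner ℝ x a') (inner ℝ a a' + inner ℝ b x' + inner ℝ x b') := by
  have h1 := (exp2_norm_cur hx ha hb).mul ((exp2_norm_cur hx' ha' hb').mul (exp2_inner_cur x a b x' a' b'))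
  simp only [one_mul, zero_mul, add_zero] at h1
  refine h1.congr (Eventually.of_forall fun t => ?_)
  unfold ncur
  rw [inner_smul_left, inner_smul_right]
  simp only [conj_trivial]

/-- coefficient of the second variation -/
noncomputable def cc (s α β : ℝ) : ℝ :=
  (√(1 - s ^ 2))⁻¹ * (s / |s| * β) + |s| / (2 * (1 - s ^ 2) * √(1 - s ^ 2)) * α ^ 2

theorem exp2_tau {F : ℝ → ℝ} {s α β : ℝ} (h : Exp2 F s α β) (hs : |s| < 1) (h0 : s = 0 → α = 0 ∧ β = 0) :
    ∃ γ, Exp2 (fun t => arcsin |F t|) (arcsin |s|) γ (cc s α β) := by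
  by_cases hs0 : s = 0
  · obtain ⟨h1, h2⟩ := h0 hs0
    rw [hs0, h1, h2] at h
    refine ⟨0, ?_⟩
    have := h.arcsin_abs_zero
    rw [hs0, h1, h2]
    simpa [cc] using this
  · exact ⟨_, h.arcsin_abs hs0 hs⟩

theorem second_var {x : ℕ → E} {S : Finset ℕ} (hunit : ∀ i, ‖x i‖ = 1)
    (hmin : ∀ y : ℕ → E, (∀ i, ‖y i‖ = 1) → T2 x S ≤ T2 y S) (hlt : ∀ i ∈ S, ∀ j ∈ S, i ≠ j → |inner ℝ (x i) (x j)| < 1)
    (a b : ℕ → E) (ha : ∀ i ∈ S, inner ℝ (x i) (a i) = 0) (hb : ∀ i ∈ S, inner ℝ (x i) (b i) = -(inner ℝ (a i) (a i)) / 2)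
    (h1 : ∀ i ∈ S, ∀ j ∈ S, i ≠ j → inner ℝ (x i) (x j) = 0 → inner ℝ (a i) (x j) + inner ℝ (x i) (a j) = 0)
    (h2 : ∀ i ∈ S, ∀ j ∈ S, i ≠ j → inner ℝ (x i) (x j) = 0 →
      inner ℝ (a i) (a j) + inner ℝ (b i) (x j) + inner ℝ (x i) (b j) = 0) :
    0 ≤ ∑ i ∈ S, ∑ j ∈ S, if i = j then 0 else cc (inner ℝ (x i) (x j)) (inner ℝ (a i) (x j) + inner ℝ (x i) (a j))
      (inner ℝ (a i) (a j) + inner ℝ (b i) (x j) + inner ℝ (x i) (b j)) := by
  classical
  have hpair : ∀ i ∈ S, ∀ j ∈ S, ∃ γ, Exp2 (fun t => ee (fun m => ncur (x m) (a m) (b m) t) i j) (ee x i j) γ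
      (if i = j then 0 else cc (inner ℝ (x i) (x j)) (inner ℝ (a i) (x j) + inner ℝ (x i) (a j))
      (inner ℝ (a i) (a j) + inner ℝ (b i) (x j) + inner ℝ (x i) (b j))) := by
    intro i hi j hj
    by_cases hij : i = j
    · refine ⟨0, ?_⟩
      unfold ee
      simp only [hij, if_true]
      exact exp2_zero
    · unfold ee tau
      simp only [if_neg hij]
      exact exp2_tau (exp2_inner_ncur (hunit i) (ha i hi) (hb i hi) (hunit j) (ha j hj) (hb j hj))
        (hlt i hi j hj hij) (fun h0 => ⟨h1 i hi j hj hij h0, h2 i hi j hj hij h0⟩)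
  have hpair' : ∀ i j, ∃ γ, i ∈ S → j ∈ S → Exp2 (fun t => ee (fun m => ncur (x m) (a m) (b m) t) i j) (ee x i j) γ
      (if i = j then 0 else cc (inner ℝ (x i) (x j)) (inner ℝ (a i) (x j) + inner ℝ (x i) (a j))
      (inner ℝ (a i) (a j) + inner ℝ (b i) (x j) + inner ℝ (x i) (b j))) := by
    intro i j
    by_cases h : i ∈ S ∧ j ∈ S
    · obtain ⟨γ, hγ⟩ := hpair i h.1 j h.2
      exact ⟨γ, fun _ _ => hγ⟩
    · exact ⟨0, fun h3 h4 => absurd ⟨h3, h4⟩ h⟩
  choose γ hγ using hpair'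
  have hsum := exp2_sum S (fun i t => ∑ j ∈ S, ee (fun m => ncur (x m) (a m) (b m) t) i j)
    (fun i => ∑ j ∈ S, ee x i j) (fun i => ∑ j ∈ S, γ i j)
    (fun i => ∑ j ∈ S, if i = j then 0 else cc (inner ℝ (x i) (x j)) (inner ℝ (a i) (x j) + inner ℝ (x i) (a j))
      (inner ℝ (a i) (a j) + inner ℝ (b i) (x j) + inner ℝ (x i) (b j)))
    (fun i hi => exp2_sum S (fun j t => ee (fun m => ncur (x m) (a m) (b m) t) i j) (fun j => ee x i j) (fun j => γ i j)
      (fun j => if i = j then 0 else cc (inner ℝ (x i) (x j)) (inner ℝ (a i) (x j) + inner ℝ (x i) (a j))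
      (inner ℝ (a i) (a j) + inner ℝ (b i) (x j) + inner ℝ (x i) (b j))) (fun j hj => hγ i j hi hj))
  refine hsum.nonneg ?_
  have hev : ∀ᶠ t : ℝ in 𝓝 0, ∀ i ∈ S, ‖ncur (x i) (a i) (b i) t‖ = 1 := by
    rw [Filter.eventually_all_finset]
    intro i hi
    have h3 := (exp2_norm_cur (hunit i) (ha i hi) (hb i hi)).tendsto
    filter_upwards [h3.eventually_ne one_ne_zero] with t ht
    unfold ncur
    rw [norm_smul, norm_inv, norm_norm]
    exact inv_mul_cancel₀ fun h0 => ht (by rw [h0, inv_zero])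
  filter_upwards [hev] with t ht
  have h3 := hmin (fun i => if i ∈ S then ncur (x i) (a i) (b i) t else x i) (fun i => by
    by_cases hi : i ∈ S
    · simp only [hi, if_true]; exact ht i hi
    · simp only [hi, if_false]; exact hunit i)
  have h4 : T2 (fun i => if i ∈ S then ncur (x i) (a i) (b i) t else x i) S =
      T2 (fun m => ncur (x m) (a m) (b m) t) S := T2_congr fun i hi => by simp only [hi, if_true]
  rw [h4] at h3
  exact h3

end Pool.Agent.H88FT
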