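import Pool.Agent.H88FT.Local
import Pool.Agent.H88FT.SV

/-! A minimal counterexample with all degrees equal to `k + 1` does not exist in dimension at least three. -/

open Real Module

namespace Pool.Agent.H88FT

section general

variable {E : Type} [NormedAddCommGroup E] [InnerProductSpace ℝ E]

theorem gram3 {u w D : E} (hu : ‖u‖ = 1) (hw : ‖w‖ = 1) (hs : |inner ℝ u w| < 1) :
    (inner ℝ D u) ^ 2 + (inner ℝ D w) ^ 2 - 2 * inner ℝ u w * (inner ℝ D u) * (inner ℝ D w) ≤
      (1 - (inner ℝ u w) ^ 2) * inner ℝ D D := by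
  obtain ⟨s, hsd⟩ : ∃ s, s = inner ℝ u w := ⟨_, rfl⟩
  obtain ⟨p, hp⟩ : ∃ p, p = inner ℝ D u := ⟨_, rfl⟩
  obtain ⟨q, hq⟩ : ∃ q, q = inner ℝ D w := ⟨_, rfl⟩
  have e1 : inner ℝ u u = (1 : ℝ) := by rw [real_inner_self_eq_norm_sq, hu]; norm_num
  have e2 : inner ℝ w w = (1 : ℝ) := by rw [real_inner_self_eq_norm_sq, hw]; norm_num
  have e3 : inner ℝ w u = s := by rw [real_inner_comm, hsd]
  have e4 : inner ℝ u D = p := by rw [real_inner_comm, hp]
  have e5 : inner ℝ w D = q := by rw [real_inner_comm, hq]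
  rw [← hsd] at hs ⊢
  rw [← hp, ← hq]
  have hpos : 0 < 1 - s ^ 2 := by
    have := (sq_lt_one_iff_abs_lt_one _).2 hs
    linarith
  have h : 0 ≤ inner ℝ ((1 - s ^ 2) • D - (p - s * q) • u - (q - s * p) • w)
      ((1 - s ^ 2) • D - (p - s * q) • u - (q - s * p) • w) := real_inner_self_nonneg
  simp only [inner_sub_left, inner_sub_right, inner_smul_left, inner_smul_right, e1, e2, e3, e4, e5, ← hsd, ← hp, ← hq,
    conj_trivial] at h
  have h2 : 0 ≤ (1 - s ^ 2) * ((1 - s ^ 2) * inner ℝ D D - (p ^ 2 + q ^ 2 - 2 * s * p * q)) := by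
    refine h.trans (le_of_eq ?_)
    ring
  have h3 := nonneg_of_mul_nonneg_right h2 hpos
  linarith

theorem cc_sum {ι : Type*} [Fintype ι] (s g Q : ℝ) (hs : |s| < 1) (α β : ι → ℝ) (hβ : ∑ z, β z = s * g - s * Q / 2) :
    ∑ z, cc s (α z) (β z) =
      |s| / (2 * (1 - s ^ 2) * √(1 - s ^ 2)) * (2 * (1 - s ^ 2) * g - (1 - s ^ 2) * Q + ∑ z, (α z) ^ 2) := by
  unfold cc
  rw [Finset.sum_add_distrib, ← Finset.mul_sum, ← Finset.mul_sum, ← Finset.mul_sum, hβ]
  have hpos : 0 < 1 - s ^ 2 := by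
    have := (sq_lt_one_iff_abs_lt_one _).2 hs
    linarith
  have hr : 0 < √(1 - s ^ 2) := sqrt_pos.2 hpos
  by_cases h0 : s = 0
  · rw [h0]; simp
  · have h1 : s / |s| * (s * g - s * Q / 2) = |s| * (g - Q / 2) := by
      have h2 : |s| ≠ 0 := abs_ne_zero.2 h0
      have h3 : |s| * |s| = s * s := abs_mul_abs_self s
      have h4 : s / |s| * s = |s| := by
        rw [div_mul_eq_mul_div, ← h3, mul_div_assoc, div_self h2, mul_one]
      have h5 : s / |s| * (s * g - s * Q / 2) = (s / |s| * s) * (g - Q / 2) := by ring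
      rw [h5, h4]
    rw [h1]
    field_simp

end general

variable {E : Type} [NormedAddCommGroup E] [InnerProductSpace ℝ E] [FiniteDimensional ℝ E]
variable {n k : ℕ} {x : ℕ → E} {S : Finset ℕ}

/-- the linear systems are solvable when the degree is maximal -/
theorem Ctx.solve (h : Ctx n k x S) {v : ℕ} (hv : v ∈ S) (hdeg : (NN x S v).card = k + 1) (c : ℕ → ℝ) :
    ∃ z : E, ∀ j ∈ insert v (OO x S v), inner ℝ (x j) z = c j := by
  have h1 := card_NO (x := x) hv
  have h2 := h.card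
  have h3 : (OO x S v).card = n := by omega
  have h4 : finrank ℝ E = finrank ℝ ((insert v (OO x S v) : Finset ℕ) → ℝ) := by
    rw [h.dim, finrank_fintype_fun_eq_card, Fintype.card_coe, Finset.card_insert_of_notMem (v_notin_OO v), h3]
  have h5 := (LinearMap.injective_iff_surjective_of_finrank_eq_finrank h4).1 (h.Lm_inj hv)
  obtain ⟨z, hz⟩ := h5 fun j => c j
  exact ⟨z, fun j hj => by rw [← Lm_apply x _ z ⟨j, hj⟩, hz]⟩

theorem Ctx.false_of_degrees (h : Ctx n k x S) (hn : 2 ≤ n) (hdeg : ∀ v ∈ S, (NN x S v).card = k + 1) : False := by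
  classical
  have hunit := h.isMin.unit
  obtain ⟨v, hv⟩ : S.Nonempty := by
    rw [← Finset.card_pos, h.card]; omega
  have hii : ∀ i, inner ℝ (x i) (x i) = (1 : ℝ) := fun i => by rw [real_inner_self_eq_norm_sq, hunit]; norm_num
  -- the vectors Y
  have hY : ∀ i, ∃ Y : E, (i ∉ OO x S v → Y = 0) ∧ (i ∈ OO x S v → inner ℝ (x i) Y = 0 ∧ inner ℝ (x v) Y = 1 ∧
      ∀ j ∈ OO x S i, j ≠ v → inner ℝ (x j) Y = 0) := by
    intro i
    by_cases hi : i ∈ OO x S v
    · obtain ⟨hiS, hiv, hi0⟩ := mem_OO.1 hi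
      obtain ⟨z, hz⟩ := h.solve hiS (hdeg i hiS) (fun j => if j = v then 1 else 0)
      refine ⟨z, fun h1 => absurd hi h1, fun _ => ⟨?_, ?_, ?_⟩⟩
      · rw [hz i (Finset.mem_insert_self _ _), if_neg hiv]
      · rw [hz v (Finset.mem_insert_of_mem (mem_OO.2 ⟨hv, hiv.symm, by rw [real_inner_comm]; exact hi0⟩)), if_pos rfl]
      · intro j hj hjv
        rw [hz j (Finset.mem_insert_of_mem hj), if_neg hjv]
    · exact ⟨0, fun _ => rfl, fun h1 => absurd h1 hi⟩
  choose Y hY0 hY1 using hY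
  have hYv : Y v = 0 := hY0 v (v_notin_OO v)
  have hYi : ∀ i, inner ℝ (x i) (Y i) = 0 := by
    intro i
    by_cases hi : i ∈ OO x S v
    · exact (hY1 i hi).1
    · rw [hY0 i hi, inner_zero_right]
  have hYs : ∀ i, inner ℝ (x v) (x i) * inner ℝ (x v) (Y i) = 0 := by
    intro i
    by_cases hi : i ∈ OO x S v
    · rw [(mem_OO.1 hi).2.2, zero_mul]
    · rw [hY0 i hi, inner_zero_right, mul_zero]
  -- the first order variations
  let c : ℕ → ℝ := fun i => if i = v then 1 else 0
  have hcv : c v = 1 := by simp [c]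
  have hc0 : ∀ i, i ≠ v → c i = 0 := fun i hi => by simp [c, hi]
  let a : E → ℕ → E := fun z i => c i • (z - (inner ℝ (x v) z) • x v) - (inner ℝ (x i) z) • Y i
  have ha_i : ∀ z i, inner ℝ (x i) (a z i) = 0 := by
    intro z i
    simp only [a]
    rw [inner_sub_right, inner_smul_right, inner_sub_right, inner_smul_right, inner_smul_right, hYi i, mul_zero, sub_zero]
    by_cases hi : i = v
    · rw [hi, hii v]; ring
    · rw [hc0 i hi, zero_mul]
  -- the second order variations
  have hB : ∀ z i, ∃ b : E, i ∈ S → ∀ j ∈ insert i (OO x S i), inner ℝ (x j) b = -(inner ℝ (a z i) (a z j)) / 2 := by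
    intro z i
    by_cases hi : i ∈ S
    · obtain ⟨b, hb⟩ := h.solve hi (hdeg i hi) (fun j => -(inner ℝ (a z i) (a z j)) / 2)
      exact ⟨b, fun _ => hb⟩
    · exact ⟨0, fun h1 => absurd h1 hi⟩
  choose b hb using hB
  -- first order conditions
  have hα : ∀ z i j, inner ℝ (a z i) (x j) + inner ℝ (x i) (a z j) = inner ℝ z
      (c i • (x j - (inner ℝ (x v) (x j)) • x v) + c j • (x i - (inner ℝ (x v) (x i)) • x v)
        - (inner ℝ (Y i) (x j)) • x i - (inner ℝ (x i) (Y j)) • x j) := by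
    intro z i j
    simp only [a, inner_sub_left, inner_sub_right, inner_smul_left, inner_smul_right, inner_add_right, conj_trivial,
      real_inner_comm z (x v), real_inner_comm z (x i), real_inner_comm z (x j), real_inner_comm (x v) (x i),
      real_inner_comm (x v) (x j)]
    ring
  have hW0 : ∀ i ∈ S, ∀ j ∈ S, i ≠ j → inner ℝ (x i) (x j) = 0 →
      c i • (x j - (inner ℝ (x v) (x j)) • x v) + c j • (x i - (inner ℝ (x v) (x i)) • x v)
        - (inner ℝ (Y i) (x j)) • x i - (inner ℝ (x i) (Y j)) • x j = 0 := by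
    intro i hi j hj hij h0
    by_cases hiv : i = v
    · have hjO : j ∈ OO x S v := mem_OO.2 ⟨hj, by rw [← hiv]; exact hij.symm, by rw [← hiv]; exact h0⟩
      rw [hiv] at h0 ⊢
      rw [hcv, hc0 j (mem_OO.1 hjO).2.1, h0, hYv, (hY1 j hjO).2.1]
      simp
    · by_cases hjv : j = v
      · have hiO : i ∈ OO x S v := mem_OO.2 ⟨hi, hiv, by rw [← hjv, real_inner_comm]; exact h0⟩
        rw [hjv] at h0 ⊢
        have e1 : inner ℝ (Y i) (x v) = 1 := by rw [real_inner_comm]; exact (hY1 i hiO).2.1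
        have e2 : inner ℝ (x v) (x i) = 0 := by rw [real_inner_comm]; exact h0
        rw [hcv, hc0 i hiv, e1, e2, hYv]
        simp
      · have e1 : inner ℝ (Y i) (x j) = 0 := by
          rw [real_inner_comm]
          by_cases hiO : i ∈ OO x S v
          · exact (hY1 i hiO).2.2 j (mem_OO.2 ⟨hj, hij.symm, h0⟩) hjv
          · rw [hY0 i hiO, inner_zero_right]
        have e2 : inner ℝ (x i) (Y j) = 0 := by
          by_cases hjO : j ∈ OO x S v
          · exact (hY1 j hjO).2.2 i (mem_OO.2 ⟨hi, hij, by rw [real_inner_comm]; exact h0⟩) hiv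
          · rw [hY0 j hjO, inner_zero_right]
        rw [hc0 i hiv, hc0 j hjv, e1, e2]
        simp
  -- sums over an orthonormal basis
  let e := stdOrthonormalBasis ℝ E
  have pars : ∀ u w : E, ∑ m, inner ℝ u (e m) * inner ℝ (e m) w = inner ℝ u w := fun u w => e.sum_inner_mul_inner u w
  have pars2 : ∀ u w : E, ∑ m, inner ℝ u (e m) * inner ℝ w (e m) = inner ℝ u w := fun u w => by
    rw [← pars u w]
    exact Finset.sum_congr rfl fun m _ => by rw [real_inner_comm w]
  have hee : ∀ m, inner ℝ (e m) (e m) = (1 : ℝ) := fun m => by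
    rw [real_inner_self_eq_norm_sq, e.orthonormal.1 m]; norm_num
  have hcard : ∑ _m : Fin (finrank ℝ E), (1 : ℝ) = n + 1 := by
    rw [Finset.sum_const, Finset.card_univ, Fintype.card_fin, h.dim]; simp
  have hG : ∀ i j, ∑ m, inner ℝ (a (e m) i) (a (e m) j) = c i * c j * n + inner ℝ (x i) (x j) * inner ℝ (Y i) (Y j) := by
    intro i j
    have e1 : ∀ m, inner ℝ (a (e m) i) (a (e m) j) =
        c i * c j * (1 - inner ℝ (x v) (e m) * inner ℝ (x v) (e m))
        - c i * (inner ℝ (x j) (e m) * inner ℝ (Y j) (e m)) - c j * (inner ℝ (x i) (e m) * inner ℝ (Y i) (e m))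
        + c i * inner ℝ (x v) (Y j) * (inner ℝ (x v) (e m) * inner ℝ (x j) (e m))
        + c j * inner ℝ (x v) (Y i) * (inner ℝ (x v) (e m) * inner ℝ (x i) (e m))
        + inner ℝ (Y i) (Y j) * (inner ℝ (x i) (e m) * inner ℝ (x j) (e m)) := by
      intro m
      simp only [a, inner_sub_left, inner_sub_right, inner_smul_left, inner_smul_right, conj_trivial, hee, hii,
        real_inner_comm (x v) (e m), real_inner_comm (Y j) (e m), real_inner_comm (x v) (Y i)]
      ring
    rw [Finset.sum_congr rfl fun m _ => e1 m]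
    simp only [Finset.sum_add_distrib, Finset.sum_sub_distrib, ← Finset.mul_sum]
    rw [hcard]
    simp only [pars2, hii, hYi]
    have h1 := hYs i
    have h2 := hYs j
    have e2 : c i * inner ℝ (x v) (Y j) * inner ℝ (x v) (x j) = 0 := by
      rw [mul_assoc, mul_comm (inner ℝ (x v) (Y j)), h2, mul_zero]
    have e3 : c j * inner ℝ (x v) (Y i) * inner ℝ (x v) (x i) = 0 := by
      rw [mul_assoc, mul_comm (inner ℝ (x v) (Y i)), h1, mul_zero]
    rw [e2, e3]
    ring
  -- sum of the second order variations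
  have hBs : ∀ i ∈ S, ∑ m, b (e m) i = -((c i * n + inner ℝ (Y i) (Y i)) / 2) • x i := by
    intro i hi
    have h1 : ∀ j ∈ insert i (OO x S i),
        inner ℝ (x j) (∑ m, b (e m) i + ((c i * n + inner ℝ (Y i) (Y i)) / 2) • x i) = 0 := by
      intro j hj
      rw [inner_add_right, inner_sum, inner_smul_right]
      have e1 : ∑ m, inner ℝ (x j) (b (e m) i) = -(∑ m, inner ℝ (a (e m) i) (a (e m) j)) / 2 := by
        rw [Finset.sum_congr rfl fun m _ => hb (e m) i hi j hj, ← Finset.sum_div, Finset.sum_neg_distrib]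
      rw [e1, hG i j]
      rw [Finset.mem_insert] at hj
      rcases hj with hj | hj
      · have hcc : c i * c i = c i := by
          by_cases hiv : i = v
          · rw [hiv, hcv]; ring
          · rw [hc0 i hiv]; ring
        rw [hj, hii, hcc]; ring
      · obtain ⟨_, hji, hij0⟩ := mem_OO.1 hj
        have hcc : c i * c j = 0 := by
          by_cases hiv : i = v
          · rw [hc0 j (by rw [← hiv]; exact hji)]; ring
          · rw [hc0 i hiv]; ring
        rw [real_inner_comm (x i) (x j), hij0, hcc]; ring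
    have h2 := h.inj hi (h1 i (Finset.mem_insert_self _ _)) (fun j hj hji hij0 => by
      rw [real_inner_comm]
      exact h1 j (Finset.mem_insert_of_mem (mem_OO.2 ⟨hj, hji, hij0⟩)))
    rw [neg_smul]
    exact eq_neg_of_add_eq_zero_left h2
  -- second variation for every basis vector
  have hsv : ∀ m, 0 ≤ ∑ i ∈ S, ∑ j ∈ S, if i = j then 0 else cc (inner ℝ (x i) (x j))
      (inner ℝ (a (e m) i) (x j) + inner ℝ (x i) (a (e m) j))
      (inner ℝ (a (e m) i) (a (e m) j) + inner ℝ (b (e m) i) (x j) + inner ℝ (x i) (b (e m) j)) := by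
    intro m
    refine second_var hunit h.isMin.min (fun i hi j hj hij => h.abs_lt_one hi hj hij) (a (e m)) (b (e m))
      (fun i _ => ha_i _ i) (fun i hi => hb (e m) i hi i (Finset.mem_insert_self _ _)) ?_ ?_
    · intro i hi j hj hij h0
      rw [hα, hW0 i hi j hj hij h0, inner_zero_right]
    · intro i hi j hj hij h0
      have e1 := hb (e m) i hi j (Finset.mem_insert_of_mem (mem_OO.2 ⟨hj, hij.symm, h0⟩))
      have e2 := hb (e m) j hj i (Finset.mem_insert_of_mem (mem_OO.2 ⟨hi, hij, by rw [real_inner_comm]; exact h0⟩))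
      rw [real_inner_comm (x j) (b (e m) i), e1, e2, real_inner_comm (a (e m) i) (a (e m) j)]
      ring
  have htot := Finset.sum_nonneg fun m (_ : m ∈ (Finset.univ : Finset (Fin (finrank ℝ E)))) => hsv m
  rw [Finset.sum_comm] at htot
  -- the terms
  let W : ℕ → ℕ → E := fun i j => c i • (x j - (inner ℝ (x v) (x j)) • x v) + c j • (x i - (inner ℝ (x v) (x i)) • x v)
        - (inner ℝ (Y i) (x j)) • x i - (inner ℝ (x i) (Y j)) • x j
  let K : ℕ → ℕ → ℝ := fun i j => 2 * (1 - (inner ℝ (x i) (x j)) ^ 2) * inner ℝ (Y i) (Y j)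
    - (1 - (inner ℝ (x i) (x j)) ^ 2) * (c i * n + inner ℝ (Y i) (Y i) + (c j * n + inner ℝ (Y j) (Y j)))
    + inner ℝ (W i j) (W i j)
  have hterm : ∀ i ∈ S, ∀ j ∈ S, i ≠ j → ∑ m, cc (inner ℝ (x i) (x j))
      (inner ℝ (a (e m) i) (x j) + inner ℝ (x i) (a (e m) j))
      (inner ℝ (a (e m) i) (a (e m) j) + inner ℝ (b (e m) i) (x j) + inner ℝ (x i) (b (e m) j)) =
      |inner ℝ (x i) (x j)| / (2 * (1 - (inner ℝ (x i) (x j)) ^ 2) * √(1 - (inner ℝ (x i) (x j)) ^ 2)) * K i j := by
    intro i hi j hj hij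
    have hcc : c i * c j = 0 := by
      by_cases hiv : i = v
      · rw [hc0 j (by rw [← hiv]; exact hij.symm)]; ring
      · rw [hc0 i hiv]; ring
    have hβ : ∑ m, (inner ℝ (a (e m) i) (a (e m) j) + inner ℝ (b (e m) i) (x j) + inner ℝ (x i) (b (e m) j)) =
        inner ℝ (x i) (x j) * inner ℝ (Y i) (Y j) - inner ℝ (x i) (x j) *
          (c i * n + inner ℝ (Y i) (Y i) + (c j * n + inner ℝ (Y j) (Y j))) / 2 := by
      rw [Finset.sum_add_distrib, Finset.sum_add_distrib, hG i j, hcc, ← sum_inner, ← inner_sum, hBs i hi, hBs j hj,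
        inner_smul_left, inner_smul_right]
      simp only [conj_trivial]
      ring
    rw [cc_sum _ _ _ (h.abs_lt_one hi hj hij) _ _ hβ]
    congr 1
    have e1 : ∑ m, (inner ℝ (a (e m) i) (x j) + inner ℝ (x i) (a (e m) j)) ^ 2 = inner ℝ (W i j) (W i j) := by
      rw [← pars2 (W i j) (W i j)]
      refine Finset.sum_congr rfl fun m _ => ?_
      rw [hα, real_inner_comm, sq]
    rw [e1]
  have hK : ∀ i ∈ S, ∀ j ∈ S, i ≠ j → i ≠ v → j ≠ v → K i j ≤ 0 := by
    intro i hi j hj hij hiv hjv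
    have h1 := gram3 (u := x i) (w := x j) (D := Y i - Y j) (hunit i) (hunit j) (h.abs_lt_one hi hj hij)
    have e1 : W i j = -((inner ℝ (Y i) (x j)) • x i + (inner ℝ (x i) (Y j)) • x j) := by
      simp only [W]
      rw [hc0 i hiv, hc0 j hjv]
      simp only [zero_smul, zero_add]
      abel
    have e2 : inner ℝ (Y i) (x i) = 0 := by rw [real_inner_comm]; exact hYi i
    have e3 : inner ℝ (Y j) (x j) = 0 := by rw [real_inner_comm]; exact hYi j
    simp only [K]
    rw [e1, hc0 i hiv, hc0 j hjv]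
    simp only [inner_neg_left, inner_neg_right, inner_add_left, inner_add_right, inner_smul_left, inner_smul_right,
      conj_trivial, hii, inner_sub_left, inner_sub_right, e2, e3, real_inner_comm (x i) (x j), real_inner_comm (x i) (Y j),
      real_inner_comm (Y i) (Y j)] at h1 ⊢
    nlinarith
  have hKv : ∀ j ∈ NN x S v, K v j = -((n - 1) * (1 - (inner ℝ (x v) (x j)) ^ 2)) := by
    intro j hj
    obtain ⟨hjS, hjv, hj0⟩ := mem_NN.1 hj
    have hjY : Y j = 0 := hY0 j fun h1 => hj0 (mem_OO.1 h1).2.2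
    have e1 : W v j = x j - (inner ℝ (x v) (x j)) • x v := by
      simp only [W]
      rw [hcv, hc0 j hjv, hYv, hjY]
      simp
    simp only [K]
    rw [e1, hYv, hjY, hcv, hc0 j hjv]
    simp only [inner_sub_left, inner_sub_right, inner_smul_left, inner_smul_right, conj_trivial, hii, inner_zero_left,
      real_inner_comm (x v) (x j)]
    ring
  have hsymm : ∀ i j, K i j = K j i := by
    intro i j
    have e1 : W i j = W j i := by
      simp only [W, real_inner_comm (x j) (Y i), real_inner_comm (x i) (Y j)]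
      abel
    simp only [K]
    rw [e1, real_inner_comm (x i) (x j), real_inner_comm (Y i) (Y j)]
    ring
  have hn1 : (1 : ℝ) ≤ n - 1 := by
    have : (2 : ℝ) ≤ n := by exact_mod_cast hn
    linarith
  have hcoef : ∀ i ∈ S, ∀ j ∈ S, i ≠ j →
      0 ≤ |inner ℝ (x i) (x j)| / (2 * (1 - (inner ℝ (x i) (x j)) ^ 2) * √(1 - (inner ℝ (x i) (x j)) ^ 2)) := by
    intro i hi j hj hij
    have h1 := h.abs_lt_one hi hj hij
    have hpos : 0 < 1 - (inner ℝ (x i) (x j)) ^ 2 := by
      have := (sq_lt_one_iff_abs_lt_one _).2 h1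
      linarith
    positivity
  have hvj : ∀ j ∈ S, j ≠ v →
      |inner ℝ (x v) (x j)| / (2 * (1 - (inner ℝ (x v) (x j)) ^ 2) * √(1 - (inner ℝ (x v) (x j)) ^ 2)) * K v j ≤ 0 := by
    intro j hj hjv
    by_cases h0 : inner ℝ (x v) (x j) = 0
    · rw [h0]; simp
    · have hjN : j ∈ NN x S v := mem_NN.2 ⟨hj, hjv, h0⟩
      have h1 := h.abs_lt_one hv hj hjv.symm
      have hpos : 0 < 1 - (inner ℝ (x v) (x j)) ^ 2 := by
        have := (sq_lt_one_iff_abs_lt_one _).2 h1
        linarith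
      refine mul_nonpos_of_nonneg_of_nonpos (hcoef v hv j hj hjv.symm) ?_
      rw [hKv j hjN]
      nlinarith
  have hle : ∀ i ∈ S, ∀ j ∈ S, (∑ m, if i = j then 0 else cc (inner ℝ (x i) (x j))
      (inner ℝ (a (e m) i) (x j) + inner ℝ (x i) (a (e m) j))
      (inner ℝ (a (e m) i) (a (e m) j) + inner ℝ (b (e m) i) (x j) + inner ℝ (x i) (b (e m) j))) ≤ 0 := by
    intro i hi j hj
    by_cases hij : i = j
    · simp [hij]
    · simp only [if_neg hij]
      rw [hterm i hi j hj hij]
      by_cases hiv : i = v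
      · rw [hiv]
        exact hvj j hj (by rw [← hiv]; exact fun h1 => hij h1.symm)
      · by_cases hjv : j = v
        · rw [hjv, hsymm, real_inner_comm]
          exact hvj i hi hiv
        · exact mul_nonpos_of_nonneg_of_nonpos (hcoef i hi j hj hij) (hK i hi j hj hij hiv hjv)
  -- a strictly negative term
  obtain ⟨j, hj1, hj2, hj3⟩ := h.noIso v hv
  have hjN : j ∈ NN x S v := mem_NN.2 ⟨hj1, hj2, hj3⟩
  have hneg : (∑ m, if v = j then 0 else cc (inner ℝ (x v) (x j))
      (inner ℝ (a (e m) v) (x j) + inner ℝ (x v) (a (e m) j))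
      (inner ℝ (a (e m) v) (a (e m) j) + inner ℝ (b (e m) v) (x j) + inner ℝ (x v) (b (e m) j))) < 0 := by
    simp only [if_neg (Ne.symm hj2)]
    rw [hterm v hv j hj1 (Ne.symm hj2), hKv j hjN]
    have h1 := h.abs_lt_one hv hj1 hj2.symm
    have hpos : 0 < 1 - (inner ℝ (x v) (x j)) ^ 2 := by
      have := (sq_lt_one_iff_abs_lt_one _).2 h1
      linarith
    have habs : 0 < |inner ℝ (x v) (x j)| := abs_pos.2 hj3
    have hr : 0 < √(1 - (inner ℝ (x v) (x j)) ^ 2) := sqrt_pos.2 hpos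
    have h2 : 0 < |inner ℝ (x v) (x j)| / (2 * (1 - (inner ℝ (x v) (x j)) ^ 2) * √(1 - (inner ℝ (x v) (x j)) ^ 2)) := by
      positivity
    have h3 : 0 < (n - 1) * (1 - (inner ℝ (x v) (x j)) ^ 2) := mul_pos (by linarith) hpos
    nlinarith
  have hrow : ∀ i ∈ S, (∑ m, ∑ j ∈ S, if i = j then 0 else cc (inner ℝ (x i) (x j))
      (inner ℝ (a (e m) i) (x j) + inner ℝ (x i) (a (e m) j))
      (inner ℝ (a (e m) i) (a (e m) j) + inner ℝ (b (e m) i) (x j) + inner ℝ (x i) (b (e m) j))) ≤ 0 := by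
    intro i hi
    rw [Finset.sum_comm]
    exact Finset.sum_nonpos fun j hj => hle i hi j hj
  have hrowv : (∑ m, ∑ j ∈ S, if v = j then 0 else cc (inner ℝ (x v) (x j))
      (inner ℝ (a (e m) v) (x j) + inner ℝ (x v) (a (e m) j))
      (inner ℝ (a (e m) v) (a (e m) j) + inner ℝ (b (e m) v) (x j) + inner ℝ (x v) (b (e m) j))) < 0 := by
    rw [Finset.sum_comm]
    exact Finset.sum_neg' (fun j hj => hle v hv j hj) ⟨j, hj1, hneg⟩
  have hfin := Finset.sum_neg' hrow ⟨v, hv, hrowv⟩
  linarith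

end Pool.Agent.H88FT
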