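import Pool.Agent.H88FT.Two
import Pool.Agent.H88FT.Three

/-! The induction, and the result for `n + k` unit vectors in dimension `n`, `k ≤ 3`. -/

open Real Module

namespace Pool.Agent.H88FT

theorem P_dim_zero (k : ℕ) : P 0 (k + 1) := by
  intro E _ _ _ hE S x hx hS
  exfalso
  obtain ⟨i, hi⟩ : S.Nonempty := by rw [← Finset.card_pos, hS]; omega
  have h1 : Subsingleton E := finrank_zero_iff.1 hE
  have h2 : x i = 0 := Subsingleton.elim _ _
  have h3 := hx i hi
  rw [h2, norm_zero] at h3
  exact zero_ne_one h3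

theorem step {n k : ℕ} (hdel : P (n + 1) k) (hperp : P n (k + 1))
    (hno : ∀ (E : Type) [NormedAddCommGroup E] [InnerProductSpace ℝ E] [FiniteDimensional ℝ E] (x : ℕ → E) (S : Finset ℕ),
      Ctx n k x S → False) : P (n + 1) (k + 1) := by
  classical
  intro E _ _ _ hE S x hx hS
  by_contra hcon
  push Not at hcon
  obtain ⟨y, hy⟩ := exists_isMin (E := E) (by rw [hE]; omega) S
  have h1 : T2 y S ≤ T2 x S := by
    have h2 := hy.min (fun i => if i ∈ S then x i else y i) (fun i => by
      by_cases hi : i ∈ S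
      · simp only [hi, if_true]; exact hx i hi
      · simp only [hi, if_false]; exact hy.unit i)
    have h3 : T2 (fun i => if i ∈ S then x i else y i) S = T2 x S := T2_congr fun i hi => by simp only [hi, if_true]
    rwa [h3] at h2
  exact hno E y S ⟨hE, hS, hy, h1.trans_lt hcon, hdel, hperp⟩

theorem avg {n k : ℕ} (h : P n k) (h3 : 3 ≤ n + (k + 1)) (h2 : n + (k + 1) ≤ 2 * (k + 1)) : P n (k + 1) := by
  intro E _ _ _ hE S x hx hS
  have h1 := T2_avg x S
  have h4 : ∀ v ∈ S, (k : ℝ) * π ≤ T2 x (S.erase v) := fun v hv =>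
    h E hE (S.erase v) x (fun i hi => hx i (Finset.mem_of_mem_erase hi))
      (by rw [Finset.card_erase_of_mem hv, hS]; omega)
  have h5 := Finset.sum_le_sum h4
  rw [Finset.sum_const, nsmul_eq_mul, h1] at h5
  have h6 : (3 : ℝ) ≤ S.card := by rw [hS]; exact_mod_cast h3
  have h7 : (S.card : ℝ) ≤ 2 * (k + 1) := by rw [hS]; exact_mod_cast h2
  have hpi := pi_pos
  have h8 : 0 < (S.card : ℝ) - 2 := by linarith
  push_cast
  have h9 : ((S.card : ℝ) - 2) * ((k + 1) * π) ≤ ((S.card : ℝ) - 2) * T2 x S := by
    refine le_trans ?_ h5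
    nlinarith
  exact le_of_mul_le_mul_left h9 h8

theorem P_one (n : ℕ) : P n 1 := by
  induction n with
  | zero => exact P_dim_zero 0
  | succ n ih =>
    refine step (P_zero _) ih fun E _ _ _ x S h => ?_
    obtain ⟨v, hv⟩ : S.Nonempty := by rw [← Finset.card_pos, h.card]; omega
    have h1 := h.card_NN hv
    have h2 := h.two_le hv
    omega

theorem P_two (n : ℕ) : P n 2 := by
  induction n with
  | zero => exact P_dim_zero 1
  | succ n ih =>
    refine step (P_one _) ih fun E _ _ _ x S h => ?_
    obtain ⟨v, hv⟩ : S.Nonempty := by rw [← Finset.card_pos, h.card]; omega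
    have h1 := h.card_NN hv
    have h2 := h.two_le hv
    have h3 := h.ne_two (P_zero n) (P_one n) hv
    omega

theorem P_three (n : ℕ) : P n 3 := by
  induction n with
  | zero => exact P_dim_zero 2
  | succ n ih =>
    rcases lt_or_ge n 2 with hn | hn
    · exact avg (P_two _) (by omega) (by omega)
    · refine step (P_two _) ih fun E _ _ _ x S h => ?_
      refine h.false_of_degrees hn fun v hv => ?_
      have h1 := h.card_NN hv
      have h2 := h.two_le hv
      have h3 := h.ne_two (P_one n) (P_two n) hv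
      omega

theorem P_le_three (n : ℕ) {k : ℕ} (hk : k ≤ 3) : P n k := by
  interval_cases k
  · exact P_zero n
  · exact P_one n
  · exact P_two n
  · exact P_three n

end Pool.Agent.H88FT
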