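import Mathlib

/-! Trigonometric inequalities for the local analysis of the sum of angles. -/

open Real

namespace Pool.Agent.H88FT

/-- hypotenuse of a right spherical triangle with legs `a`, `b` -/
noncomputable def hyp (a b : ℝ) : ℝ := arccos (cos a * cos b)

theorem hyp_comm (a b : ℝ) : hyp a b = hyp b a := by unfold hyp; rw [mul_comm]

theorem hyp_nonneg (a b : ℝ) : 0 ≤ hyp a b := arccos_nonneg _

theorem cos_nn {a : ℝ} (h0 : 0 ≤ a) (h1 : a ≤ π / 2) : 0 ≤ cos a :=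
  cos_nonneg_of_mem_Icc ⟨by linarith [pi_pos], h1⟩

theorem hyp_le_half {a b : ℝ} (ha0 : 0 ≤ a) (ha : a ≤ π / 2) (hb0 : 0 ≤ b) (hb : b ≤ π / 2) :
    hyp a b ≤ π / 2 := by
  unfold hyp
  rw [arccos_le_pi_div_two]
  exact mul_nonneg (cos_nn ha0 ha) (cos_nn hb0 hb)

theorem cos_hyp {a b : ℝ} (ha0 : 0 ≤ a) (ha : a ≤ π / 2) (hb0 : 0 ≤ b) (hb : b ≤ π / 2) :
    cos (hyp a b) = cos a * cos b := by
  unfold hyp
  have h1 := cos_nn ha0 ha
  have h2 := cos_nn hb0 hb
  have h3 := cos_le_one a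
  have h4 := cos_le_one b
  rw [cos_arccos]
  · nlinarith
  · nlinarith

theorem sin_hyp (a b : ℝ) : sin (hyp a b) = √(1 - (cos a * cos b) ^ 2) := by
  unfold hyp; rw [sin_arccos]

/-- the hypotenuse is 1-Lipschitz in a leg -/
theorem hyp_add_le {a b δ : ℝ} (ha0 : 0 ≤ a) (hδ : 0 ≤ δ) (ha : a + δ ≤ π / 2) (hb0 : 0 ≤ b)
    (hb : b ≤ π / 2) : hyp (a + δ) b ≤ hyp a b + δ := by
  have hp := pi_pos
  have h1 : 0 ≤ hyp a b := hyp_nonneg _ _
  have h2 : hyp a b ≤ π / 2 := hyp_le_half ha0 (by linarith) hb0 hb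
  have key : cos (hyp a b + δ) ≤ cos (a + δ) * cos b := by
    rw [cos_add, cos_add, cos_hyp ha0 (by linarith) hb0 hb]
    have hs : 0 ≤ sin δ := sin_nonneg_of_nonneg_of_le_pi hδ (by linarith)
    have h3 : sin a * cos b ≤ sin (hyp a b) := by
      rw [sin_hyp]
      apply le_sqrt_of_sq_le
      have e1 := sin_sq_add_cos_sq a
      have e2 := sin_sq_add_cos_sq b
      nlinarith [sq_nonneg (sin b)]
    nlinarith
  have : hyp (a + δ) b = arccos (cos (a + δ) * cos b) := rfl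
  rw [this]
  calc arccos (cos (a + δ) * cos b) ≤ arccos (cos (hyp a b + δ)) := arccos_le_arccos key
    _ = hyp a b + δ := arccos_cos (by linarith) (by linarith)

theorem hyp_zero_left {b : ℝ} (hb0 : 0 ≤ b) (hb : b ≤ π / 2) : hyp 0 b = b := by
  unfold hyp
  rw [cos_zero, one_mul, arccos_cos hb0 (by linarith [pi_pos])]

theorem hyp_le_add {a b : ℝ} (ha0 : 0 ≤ a) (ha : a ≤ π / 2) (hb0 : 0 ≤ b) (hb : b ≤ π / 2) :
    hyp a b ≤ a + b := by
  have := hyp_add_le (a := 0) (δ := a) le_rfl ha0 (by linarith) hb0 hb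
  rw [zero_add, hyp_zero_left hb0 hb] at this
  linarith

theorem sin_hyp_eq {p q w : ℝ} (hp : 0 ≤ sin p) (hcp : 0 < cos p) (hcq : 0 < cos q)
    (hw : 0 ≤ cos w) (hs : sin w * (cos p * cos q) = sin p * sin q) : sin (hyp w p) * cos q = sin p := by
  rw [sin_hyp]
  have h1 : 0 ≤ √(1 - (cos w * cos p) ^ 2) * cos q := mul_nonneg (sqrt_nonneg _) hcq.le
  refine (pow_left_inj₀ h1 hp two_ne_zero).1 ?_
  have h3 : (cos w * cos p) ^ 2 ≤ 1 := by
    have h5 : cos w * cos p ≤ 1 := mul_le_one₀ (cos_le_one w) hcp.le (cos_le_one p)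
    have h6 : 0 ≤ cos w * cos p := mul_nonneg hw hcp.le
    exact pow_le_one₀ h6 h5
  rw [mul_pow, sq_sqrt (by linarith)]
  have ew : cos w ^ 2 = 1 - sin w ^ 2 := by have := sin_sq_add_cos_sq w; linarith
  have e1 : cos p ^ 2 = 1 - sin p ^ 2 := by have := sin_sq_add_cos_sq p; linarith
  have e2 : cos q ^ 2 = 1 - sin q ^ 2 := by have := sin_sq_add_cos_sq q; linarith
  have h4 : (1 - (cos w * cos p) ^ 2) * cos q ^ 2 = cos q ^ 2 - (cos p * cos q) ^ 2 + (sin w * (cos p * cos q)) ^ 2 := by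
    rw [mul_pow (cos w), ew]; ring
  rw [h4, hs, mul_pow, mul_pow, e1, e2]; ring

/-- the key inequality: `sin w = tan p tan q` -/
theorem key_ineq {p q w : ℝ} (hp : 0 ≤ p) (hq : 0 ≤ q) (hpq : p + q ≤ π / 2) (hp' : p < π / 2) (hq' : q < π / 2)
    (hw0 : 0 ≤ w) (hw : w ≤ π / 2) (hs : sin w = tan p * tan q) : hyp w p + hyp w q ≤ w + p + q := by
  have hpi := pi_pos
  have c1 : 0 < cos p := cos_pos_of_mem_Ioo ⟨by linarith, hp'⟩
  have c2 : 0 < cos q := cos_pos_of_mem_Ioo ⟨by linarith, hq'⟩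
  have s1 : 0 ≤ sin p := sin_nonneg_of_nonneg_of_le_pi hp (by linarith)
  have s2 : 0 ≤ sin q := sin_nonneg_of_nonneg_of_le_pi hq (by linarith)
  have cw : 0 ≤ cos w := cos_nn hw0 hw
  have hs' : sin w * (cos p * cos q) = sin p * sin q := by
    rw [hs, tan_eq_sin_div_cos, tan_eq_sin_div_cos]; field_simp
  have cpq : 0 ≤ cos (p + q) := cos_nn (by linarith) hpq
  have spq : 0 ≤ sin (p + q) := sin_nonneg_of_nonneg_of_le_pi (by linarith) (by linarith)
  have cpm : cos (p + q) ≤ cos (p - q) := by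
    rw [cos_add, cos_sub]; linarith [mul_nonneg s1 s2]
  obtain ⟨u, hu0, hu⟩ : ∃ u : ℝ, 0 ≤ u ∧ u ^ 2 = cos (p + q) := ⟨√(cos (p + q)), sqrt_nonneg _, sq_sqrt cpq⟩
  obtain ⟨v, hv0, hv⟩ : ∃ v : ℝ, 0 ≤ v ∧ v ^ 2 = cos (p - q) :=
    ⟨√(cos (p - q)), sqrt_nonneg _, sq_sqrt (cpq.trans cpm)⟩
  have huv : u ≤ v := by
    apply le_of_sq_le_sq _ hv0
    rw [hu, hv]; exact cpm
  have hQ : cos w * (cos p * cos q) = u * v := by
    have h1 : (cos w * (cos p * cos q)) ^ 2 = (u * v) ^ 2 := by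
      rw [mul_pow u v, hu, hv, cos_add, cos_sub]
      have ew : cos w ^ 2 = 1 - sin w ^ 2 := by have := sin_sq_add_cos_sq w; linarith
      have : cos w ^ 2 * (cos p * cos q) ^ 2 = (cos p * cos q) ^ 2 - (sin p * sin q) ^ 2 := by
        rw [← hs', ew]; ring
      rw [mul_pow, this]; ring
    have h2 : 0 ≤ cos w * (cos p * cos q) := mul_nonneg cw (mul_nonneg c1.le c2.le)
    exact (pow_left_inj₀ h2 (mul_nonneg hu0 hv0) two_ne_zero).1 h1
  have hss : sin p * sin q = (v ^ 2 - u ^ 2) / 2 := by rw [hu, hv, cos_add, cos_sub]; ring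
  have sA : sin (hyp w p) * cos q = sin p := sin_hyp_eq s1 c1 c2 cw hs'
  have sB : sin (hyp w q) * cos p = sin q := sin_hyp_eq s2 c2 c1 cw (by rw [mul_comm (cos q), hs', mul_comm])
  have cA : cos (hyp w p) = cos w * cos p := cos_hyp hw0 hw hp hp'.le
  have cB : cos (hyp w q) = cos w * cos q := cos_hyp hw0 hw hq hq'.le
  have hA := hyp_le_half hw0 hw hp hp'.le
  have hB := hyp_le_half hw0 hw hq hq'.le
  have hA0 := hyp_nonneg w p
  have hB0 := hyp_nonneg w q
  by_contra hcon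
  push Not at hcon
  have hlt : cos (hyp w p + hyp w q) < cos (w + (p + q)) :=
    cos_lt_cos_of_nonneg_of_le_pi (by linarith) (by linarith) (by linarith)
  rw [cos_add, cos_add w, cA, cB] at hlt
  have hcc : 0 < cos p * cos q := mul_pos c1 c2
  have h1 : (cos w * cos p * (cos w * cos q) - sin (hyp w p) * sin (hyp w q)) * (cos p * cos q) <
      (cos w * cos (p + q) - sin w * sin (p + q)) * (cos p * cos q) := mul_lt_mul_of_pos_right hlt hcc
  have h2 : (cos w * cos p * (cos w * cos q) - sin (hyp w p) * sin (hyp w q)) * (cos p * cos q) =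
      (cos w * (cos p * cos q)) ^ 2 - (sin (hyp w p) * cos q) * (sin (hyp w q) * cos p) := by ring
  have h3 : (cos w * cos (p + q) - sin w * sin (p + q)) * (cos p * cos q) =
      (cos w * (cos p * cos q)) * cos (p + q) - (sin w * (cos p * cos q)) * sin (p + q) := by ring
  rw [h2, h3, hQ, sA, sB, hs', hss, ← hu] at h1
  have h4 : 1 ≤ u ^ 2 + sin (p + q) := by
    rw [hu]
    have e := sin_sq_add_cos_sq (p + q)
    have e1 := mul_nonneg cpq (sub_nonneg.2 (cos_le_one (p + q)))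
    have e2 := mul_nonneg spq (sub_nonneg.2 (sin_le_one (p + q)))
    nlinarith
  generalize sin (p + q) = s at h1 h4
  have h5 : 0 ≤ (v - u) * (u ^ 2 * v - (u + v) / 2 * (1 - s)) := by
    apply mul_nonneg (by linarith)
    have e1 : (u + v) / 2 * (1 - s) ≤ (u + v) / 2 * u ^ 2 :=
      mul_le_mul_of_nonneg_left (by linarith) (by linarith)
    have e2 : (u + v) / 2 * u ^ 2 ≤ v * u ^ 2 := mul_le_mul_of_nonneg_right (by linarith) (sq_nonneg u)
    linarith
  have h6 : (v - u) * (u ^ 2 * v - (u + v) / 2 * (1 - s)) =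
      (u * v) ^ 2 - (v ^ 2 - u ^ 2) / 2 - (u * v * u ^ 2 - (v ^ 2 - u ^ 2) / 2 * s) := by ring
  linarith

theorem G_aux {p q w r1 r2 a : ℝ} (hp : 0 < p) (hq : 0 < q) (hpq : p + q < π / 2) (hw0 : 0 ≤ w) (hw : w ≤ π / 2)
    (hs : sin w = tan p * tan q) (hr1 : 0 ≤ r1) (hr2' : r2 ≤ π / 2) (h12 : r1 ≤ r2)
    (ha2 : r2 ≤ a) (ha : r1 + r2 - w ≤ a) : hyp r1 p + hyp r2 q ≤ a + p + q := by
  have hpi := pi_pos
  rcases le_or_gt w r1 with h | h
  · have h1 := hyp_add_le (a := w) (δ := r1 - w) (b := p) hw0 (by linarith) (by linarith) hp.le (by linarith)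
    have h2 := hyp_add_le (a := w) (δ := r2 - w) (b := q) hw0 (by linarith) (by linarith) hq.le (by linarith)
    have h3 := key_ineq hp.le hq.le hpq.le (by linarith) (by linarith) hw0 hw hs
    rw [add_sub_cancel] at h1 h2
    linarith
  · have htp : 0 < tan p := tan_pos_of_pos_of_lt_pi_div_two hp (by linarith)
    have htq : 0 < tan q := tan_pos_of_pos_of_lt_pi_div_two hq (by linarith)
    have hsr : 0 ≤ sin r1 := sin_nonneg_of_nonneg_of_le_pi hr1 (by linarith)
    have hsw : sin r1 ≤ sin w := (sin_lt_sin_of_lt_of_le_pi_div_two (by linarith) hw h).le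
    have hle : sin r1 / tan q ≤ tan p := by
      rw [div_le_iff₀ htq, ← hs]; exact hsw
    have hp'0 : 0 ≤ arctan (sin r1 / tan q) := arctan_nonneg.2 (div_nonneg hsr htq.le)
    have hp'1 : arctan (sin r1 / tan q) ≤ p := by
      calc arctan (sin r1 / tan q) ≤ arctan (tan p) := arctan_mono hle
        _ = p := arctan_tan (by linarith) (by linarith)
    have h3 := key_ineq (p := arctan (sin r1 / tan q)) (q := q) (w := r1) hp'0 hq.le (by linarith) (by linarith)
      (by linarith) hr1 (by linarith) (by rw [tan_arctan, div_mul_cancel₀ _ htq.ne'])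
    have h1 := hyp_add_le (a := arctan (sin r1 / tan q)) (δ := p - arctan (sin r1 / tan q)) (b := r1) hp'0
      (by linarith) (by linarith) hr1 (by linarith)
    have h2 := hyp_add_le (a := r1) (δ := r2 - r1) (b := q) hr1 (by linarith) (by linarith) hq.le (by linarith)
    rw [add_sub_cancel] at h1 h2
    rw [hyp_comm p, hyp_comm (arctan _)] at h1
    linarith

theorem G_ineq {p q w r1 r2 a : ℝ} (hp : 0 < p) (hq : 0 < q) (hpq : p + q < π / 2) (hw0 : 0 ≤ w) (hw : w ≤ π / 2)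
    (hs : sin w = tan p * tan q) (hr1 : 0 ≤ r1) (hr1' : r1 ≤ π / 2) (hr2 : 0 ≤ r2) (hr2' : r2 ≤ π / 2)
    (ha1 : r1 ≤ a) (ha2 : r2 ≤ a) (ha : r1 + r2 - w ≤ a) : hyp r1 p + hyp r2 q ≤ a + p + q := by
  rcases le_total r1 r2 with h | h
  · exact G_aux hp hq hpq hw0 hw hs hr1 hr2' h ha2 ha
  · have := G_aux hq hp (by linarith) hw0 hw (by rw [hs, mul_comm]) hr2 hr1' h ha1 (by linarith)
    linarith

/-- `arcsin (c sin t)`, continued by a constant after `π/2` -/
noncomputable def sf (c t : ℝ) : ℝ := arcsin (c * sin (min t (π / 2)))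

theorem sf_aux {c a b : ℝ} (hc0 : 0 ≤ c) (hc1 : c ≤ 1) (ha : 0 ≤ a) (hb : 0 ≤ b) (hab : a + b ≤ π / 2) :
    arcsin (c * sin (a + b)) ≤ arcsin (c * sin a) + arcsin (c * sin b) := by
  have hpi := pi_pos
  have sa : 0 ≤ sin a := sin_nonneg_of_nonneg_of_le_pi ha (by linarith)
  have sb : 0 ≤ sin b := sin_nonneg_of_nonneg_of_le_pi hb (by linarith)
  have ca : 0 ≤ cos a := cos_nn ha (by linarith)
  have cb : 0 ≤ cos b := cos_nn hb (by linarith)
  have h1a : c * sin a ≤ 1 := mul_le_one₀ hc1 sa (sin_le_one a)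
  have h1b : c * sin b ≤ 1 := mul_le_one₀ hc1 sb (sin_le_one b)
  have h0a : 0 ≤ c * sin a := mul_nonneg hc0 sa
  have h0b : 0 ≤ c * sin b := mul_nonneg hc0 sb
  rcases le_or_gt (π / 2) (arcsin (c * sin a) + arcsin (c * sin b)) with h | h
  · exact (arcsin_le_pi_div_two _).trans h
  · have n1 : 0 ≤ arcsin (c * sin a) := arcsin_nonneg.2 h0a
    have n2 : 0 ≤ arcsin (c * sin b) := arcsin_nonneg.2 h0b
    rw [arcsin_le_iff_le_sin' ⟨by linarith, h⟩, sin_add, sin_add, sin_arcsin (by linarith) h1a,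
      sin_arcsin (by linarith) h1b, cos_arcsin, cos_arcsin]
    have e1 : cos a ≤ √(1 - (c * sin a) ^ 2) := by
      apply le_sqrt_of_sq_le
      have := sin_sq_add_cos_sq a
      have h2 : (c * sin a) ^ 2 ≤ sin a ^ 2 := by
        rw [mul_pow]; exact mul_le_of_le_one_left (sq_nonneg _) (pow_le_one₀ hc0 hc1)
      linarith
    have e2 : cos b ≤ √(1 - (c * sin b) ^ 2) := by
      apply le_sqrt_of_sq_le
      have := sin_sq_add_cos_sq b
      have h2 : (c * sin b) ^ 2 ≤ sin b ^ 2 := by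
        rw [mul_pow]; exact mul_le_of_le_one_left (sq_nonneg _) (pow_le_one₀ hc0 hc1)
      linarith
    have e3 := mul_le_mul_of_nonneg_left e2 h0a
    have e4 := mul_le_mul_of_nonneg_right e1 h0b
    calc c * (sin a * cos b + cos a * sin b) = c * sin a * cos b + cos a * (c * sin b) := by ring
      _ ≤ _ := add_le_add e3 e4

theorem sf_sub {c a b : ℝ} (hc0 : 0 ≤ c) (hc1 : c ≤ 1) (ha : 0 ≤ a) (hb : 0 ≤ b) :
    sf c (a + b) ≤ sf c a + sf c b := by
  have hpi := pi_pos
  have key : ∀ a' b' : ℝ, 0 ≤ a' → 0 ≤ b' → a' ≤ π / 2 → b' ≤ π / 2 →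
      arcsin (c * sin (min (a' + b') (π / 2))) ≤ arcsin (c * sin a') + arcsin (c * sin b') := by
    intro a' b' h1 h2 h3 h4
    rcases le_total (a' + b') (π / 2) with h | h
    · rw [min_eq_left h]; exact sf_aux hc0 hc1 h1 h2 h
    · rw [min_eq_right h]
      have h5 := sf_aux (a := a') (b := π / 2 - a') hc0 hc1 h1 (by linarith) (by linarith)
      rw [add_sub_cancel] at h5
      have h6 : arcsin (c * sin (π / 2 - a')) ≤ arcsin (c * sin b') := by
        apply arcsin_le_arcsin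
        apply mul_le_mul_of_nonneg_left _ hc0
        exact sin_le_sin_of_le_of_le_pi_div_two (by linarith) h4 (by linarith)
      linarith
  have e : min (a + b) (π / 2) = min (min a (π / 2) + min b (π / 2)) (π / 2) := by
    rcases le_total a (π / 2) with h | h <;> rcases le_total b (π / 2) with h' | h' <;>
      simp only [min_eq_left, min_eq_right, h, h']
    · rw [min_eq_right, min_eq_right] <;> linarith
    · rw [min_eq_right, min_eq_right] <;> linarith
    · rw [min_eq_right, min_eq_right] <;> linarith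
  unfold sf
  rw [e]
  exact key _ _ (le_min ha (by linarith)) (le_min hb (by linarith)) (min_le_right _ _) (min_le_right _ _)

theorem sf_zero (c : ℝ) : sf c 0 = 0 := by
  unfold sf; rw [min_eq_left (by linarith [pi_pos])]; simp

theorem sf_sum {ι : Type*} {c : ℝ} (hc0 : 0 ≤ c) (hc1 : c ≤ 1) (S : Finset ι) (r : ι → ℝ) (hr : ∀ i ∈ S, 0 ≤ r i) :
    sf c (∑ i ∈ S, r i) ≤ ∑ i ∈ S, sf c (r i) := by
  classical
  induction S using Finset.induction_on with
  | empty => simp [sf_zero]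
  | insert i S hi ih =>
    rw [Finset.sum_insert hi, Finset.sum_insert hi]
    have h1 := ih fun j hj => hr j (Finset.mem_insert_of_mem hj)
    have h2 := sf_sub (c := c) hc0 hc1 (hr i (Finset.mem_insert_self _ _))
      (Finset.sum_nonneg fun j hj => hr j (Finset.mem_insert_of_mem hj))
    linarith

theorem sf_eq (p R : ℝ) : sf (cos p) R = π / 2 - hyp (max 0 (π / 2 - R)) p := by
  unfold sf hyp
  have : sin (min R (π / 2)) = cos (max 0 (π / 2 - R)) := by
    rw [← cos_pi_div_two_sub]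
    congr 1
    rcases le_total R (π / 2) with h | h
    · rw [min_eq_left h, max_eq_right (by linarith)]
    · rw [min_eq_right h, max_eq_left (by linarith)]; ring
  rw [this, arcsin_eq_pi_div_two_sub_arccos, mul_comm]

/-- projection form: `arcsin (cos p * m)` when `m = sin r` -/
theorem sf_of_sin {c m : ℝ} (h0 : 0 ≤ m) (h1 : m ≤ 1) : sf c (arcsin m) = arcsin (c * m) := by
  unfold sf
  rw [min_eq_left (arcsin_le_pi_div_two _), sin_arcsin (by linarith) h1]

end Pool.Agent.H88FT
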