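import Pool.Agent.H88FT.Block
import Pool.Agent.H88FT.Trig

/-! Local structure of a minimal counterexample. -/

open Real Module

namespace Pool.Agent.H88FT

variable {E : Type} [NormedAddCommGroup E] [InnerProductSpace ℝ E] [FiniteDimensional ℝ E]

/-- a counterexample with `n + 1 + (k + 1)` vectors in dimension `n + 1`, the smaller cases being settled -/
structure Ctx (n k : ℕ) (x : ℕ → E) (S : Finset ℕ) : Prop where
  dim : finrank ℝ E = n + 1
  card : S.card = n + 1 + (k + 1)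
  isMin : IsMin x S
  small : T2 x S < ((k + 1 : ℕ) : ℝ) * π
  del : P (n + 1) k
  perp : P n (k + 1)

variable {n k : ℕ} {x : ℕ → E} {S : Finset ℕ}

theorem Ctx.D_lt (h : Ctx n k x S) {v : ℕ} (hv : v ∈ S) : DD x S v < π / 2 := by
  have h1 := h.del E h.dim (S.erase v) x (fun i _ => h.isMin.unit i)
    (by rw [Finset.card_erase_of_mem hv, h.card]; omega)
  have h2 := T2_erase x hv
  have h3 := h.small
  push_cast at h3
  linarith

theorem Ctx.noIso (h : Ctx n k x S) : NoIso x S := by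
  intro v hv
  by_contra hcon
  push Not at hcon
  have h1 := perp_bound h.perp h.dim (h.isMin.unit v) (S.erase v) x (fun i _ => h.isMin.unit i)
    (fun i hi => hcon i (Finset.mem_of_mem_erase hi) (Finset.ne_of_mem_erase hi))
    (by rw [Finset.card_erase_of_mem hv, h.card]; omega)
  have h2 := T2_erase x hv
  have h3 := h.small
  have h4 := DD_nonneg x S v
  linarith

omit [FiniteDimensional ℝ E] in
theorem Ctx.tau_le_DD {v j : ℕ} (hj : j ∈ S) (hvj : v ≠ j) : tau (x v) (x j) ≤ DD x S v := by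
  rw [← ee_of_ne x hvj]
  exact Finset.single_le_sum (f := fun j => ee x v j) (fun i _ => ee_nonneg x v i) hj

theorem Ctx.abs_lt_one (h : Ctx n k x S) {v j : ℕ} (hv : v ∈ S) (hj : j ∈ S) (hvj : v ≠ j) :
    |inner ℝ (x v) (x j)| < 1 := by
  have h1 := (Ctx.tau_le_DD (x := x) hj hvj).trans_lt (h.D_lt hv)
  unfold tau at h1
  exact arcsin_lt_pi_div_two.1 h1

theorem Ctx.block (h : Ctx n k x S) {v : ℕ} (hv : v ∈ S) {z : E} (hz : z ≠ 0) (hzv : inner ℝ (x v) z = 0) :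
    ∃ j ∈ S, j ≠ v ∧ inner ℝ (x v) (x j) = 0 ∧ inner ℝ z (x j) ≠ 0 := by
  have hz' : ‖z‖ ≠ 0 := norm_ne_zero_iff.2 hz
  obtain ⟨j, h1, h2, h3, h4⟩ := block_unit h.isMin.unit h.isMin.min h.isMin.orth h.noIso hv
    (z := ‖z‖⁻¹ • z) (by rw [norm_smul, norm_inv, norm_norm, inv_mul_cancel₀ hz'])
    (by rw [inner_smul_right, hzv, mul_zero])
  refine ⟨j, h1, h2, h3, fun h5 => h4 ?_⟩
  rw [inner_smul_left, h5, mul_zero]

theorem Ctx.inj (h : Ctx n k x S) {v : ℕ} (hv : v ∈ S) {z : E} (hzv : inner ℝ (x v) z = 0)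
    (hz : ∀ j ∈ S, j ≠ v → inner ℝ (x v) (x j) = 0 → inner ℝ z (x j) = 0) : z = 0 := by
  by_contra hz0
  obtain ⟨j, h1, h2, h3, h4⟩ := h.block hv hz0 hzv
  exact h4 (hz j h1 h2 h3)

open Classical in
/-- neighbours: indices with non-orthogonal vectors -/
noncomputable def NN (x : ℕ → E) (S : Finset ℕ) (v : ℕ) : Finset ℕ :=
  (S.erase v).filter fun j => ¬ inner ℝ (x v) (x j) = 0

open Classical in
/-- indices with orthogonal vectors -/
noncomputable def OO (x : ℕ → E) (S : Finset ℕ) (v : ℕ) : Finset ℕ :=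
  (S.erase v).filter fun j => inner ℝ (x v) (x j) = 0

omit [FiniteDimensional ℝ E] in
theorem mem_NN {x : ℕ → E} {S : Finset ℕ} {v j : ℕ} : j ∈ NN x S v ↔ j ∈ S ∧ j ≠ v ∧ inner ℝ (x v) (x j) ≠ 0 := by
  unfold NN
  simp only [Finset.mem_filter, Finset.mem_erase, ne_eq]
  tauto

omit [FiniteDimensional ℝ E] in
theorem mem_OO {x : ℕ → E} {S : Finset ℕ} {v j : ℕ} : j ∈ OO x S v ↔ j ∈ S ∧ j ≠ v ∧ inner ℝ (x v) (x j) = 0 := by
  unfold OO
  simp only [Finset.mem_filter, Finset.mem_erase, ne_eq]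
  tauto

omit [FiniteDimensional ℝ E] in
theorem card_NO {v : ℕ} (hv : v ∈ S) : (OO x S v).card + (NN x S v).card + 1 = S.card := by
  unfold OO NN
  rw [Finset.card_filter_add_card_filter_not, Finset.card_erase_add_one hv]

omit [FiniteDimensional ℝ E] in
theorem split_S {v : ℕ} (hv : v ∈ S) : insert v (NN x S v ∪ OO x S v) = S := by
  ext j
  simp only [Finset.mem_insert, Finset.mem_union, mem_NN, mem_OO]
  constructor
  · rintro (h | h | h)
    · rw [h]; exact hv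
    · exact h.1
    · exact h.1
  · intro hj
    by_cases h1 : j = v
    · exact Or.inl h1
    · by_cases h2 : inner ℝ (x v) (x j) = 0
      · exact Or.inr (Or.inr ⟨hj, h1, h2⟩)
      · exact Or.inr (Or.inl ⟨hj, h1, h2⟩)

/-- inner products with the vectors of index in `A` -/
noncomputable def Lm (x : ℕ → E) (A : Finset ℕ) : E →ₗ[ℝ] (A → ℝ) :=
  LinearMap.pi fun j : A => (innerSL ℝ (x j) : E →ₗ[ℝ] ℝ)

omit [FiniteDimensional ℝ E] in
theorem Lm_apply (x : ℕ → E) (A : Finset ℕ) (z : E) (j : A) : Lm x A z j = inner ℝ (x j) z := rfl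

theorem Ctx.Lm_inj (h : Ctx n k x S) {v : ℕ} (hv : v ∈ S) : Function.Injective (Lm x (insert v (OO x S v))) := by
  rw [← LinearMap.ker_eq_bot, LinearMap.ker_eq_bot']
  intro z hz
  have h1 : ∀ j ∈ insert v (OO x S v), inner ℝ (x j) z = 0 := by
    intro j hj
    rw [← Lm_apply x _ z ⟨j, hj⟩, hz]; rfl
  refine h.inj hv (h1 v (Finset.mem_insert_self _ _)) fun j hj hjv hjo => ?_
  rw [real_inner_comm]
  exact h1 j (Finset.mem_insert_of_mem (mem_OO.2 ⟨hj, hjv, hjo⟩))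

omit [FiniteDimensional ℝ E] in
theorem v_notin_OO (v : ℕ) : v ∉ OO x S v := fun h => (mem_OO.1 h).2.1 rfl

theorem Ctx.card_OO (h : Ctx n k x S) {v : ℕ} (hv : v ∈ S) : n ≤ (OO x S v).card := by
  have h1 := LinearMap.finrank_le_finrank_of_injective (h.Lm_inj hv)
  rw [h.dim, finrank_fintype_fun_eq_card, Fintype.card_coe, Finset.card_insert_of_notMem (v_notin_OO v)] at h1
  omega

theorem Ctx.card_NN (h : Ctx n k x S) {v : ℕ} (hv : v ∈ S) : (NN x S v).card ≤ k + 1 := by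
  have h1 := h.card_OO hv
  have h2 := card_NO (x := x) hv
  have h3 := h.card
  omega

theorem Ctx.partner (h : Ctx n k x S) {v j : ℕ} (hv : v ∈ S) (hj : j ∈ NN x S v) :
    ∃ l ∈ NN x S v, l ≠ j ∧ inner ℝ (x j) (x l) = 0 := by
  obtain ⟨hjS, hjv, hjn⟩ := mem_NN.1 hj
  obtain ⟨b, hb⟩ : ∃ b, b = inner ℝ (x v) (x j) := ⟨_, rfl⟩
  have hb1 : |b| < 1 := by rw [hb]; exact h.abs_lt_one hv hjS hjv.symm
  have hjj : inner ℝ (x j) (x j) = (1 : ℝ) := by rw [real_inner_self_eq_norm_sq, h.isMin.unit]; norm_num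
  have hw : x v - b • x j ≠ 0 := by
    intro h0
    have h1 : x v = b • x j := sub_eq_zero.1 h0
    have h2 := h.isMin.unit v
    rw [h1, norm_smul, h.isMin.unit j, mul_one, Real.norm_eq_abs] at h2
    linarith
  obtain ⟨l, h1, h2, h3, h4⟩ := h.block hjS hw (by
    rw [inner_sub_right, inner_smul_right, hjj, real_inner_comm, ← hb]; ring)
  rw [inner_sub_left, inner_smul_left, h3, mul_zero, sub_zero] at h4
  refine ⟨l, mem_NN.2 ⟨h1, ?_, h4⟩, h2, h3⟩
  intro hlv
  rw [hlv, real_inner_comm] at h3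
  exact hjn h3

theorem Ctx.two_le (h : Ctx n k x S) {v : ℕ} (hv : v ∈ S) : 2 ≤ (NN x S v).card := by
  obtain ⟨j, hj1, hj2, hj3⟩ := h.noIso v hv
  have hj : j ∈ NN x S v := mem_NN.2 ⟨hj1, hj2, hj3⟩
  obtain ⟨l, hl, hlj, _⟩ := h.partner hv hj
  exact Finset.one_lt_card.2 ⟨l, hl, j, hj, hlj⟩

end Pool.Agent.H88FT
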