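import Pool.Agent.H88FT.Local

/-! No index of degree two at a minimal counterexample. -/

open Real Module

namespace Pool.Agent.H88FT

variable {E : Type} [NormedAddCommGroup E] [InnerProductSpace ℝ E]

/-- normalised projection of `u` on the orthogonal complement of `v` -/
noncomputable def pr (v u : E) : E := (√(1 - (inner ℝ v u) ^ 2))⁻¹ • (u - (inner ℝ v u) • v)

theorem pr_perp {v u : E} (hv : ‖v‖ = 1) : inner ℝ v (pr v u) = 0 := by
  unfold pr
  rw [inner_smul_right, inner_sub_right, inner_smul_right, real_inner_self_eq_norm_sq, hv]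
  ring

theorem pr_decomp {v u : E} (h : |inner ℝ v u| < 1) :
    u = (inner ℝ v u) • v + √(1 - (inner ℝ v u) ^ 2) • pr v u := by
  unfold pr
  have h1 : 0 < 1 - (inner ℝ v u) ^ 2 := by
    have := (sq_lt_one_iff_abs_lt_one _).2 h
    linarith
  rw [smul_smul, mul_inv_cancel₀ (sqrt_pos.2 h1).ne', one_smul]
  abel

theorem pr_norm {v u : E} (hv : ‖v‖ = 1) (hu : ‖u‖ = 1) (h : |inner ℝ v u| < 1) : ‖pr v u‖ = 1 := by
  have h1 : 0 < 1 - (inner ℝ v u) ^ 2 := by
    have := (sq_lt_one_iff_abs_lt_one _).2 h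
    linarith
  have h2 : ‖u - (inner ℝ v u) • v‖ ^ 2 = 1 - (inner ℝ v u) ^ 2 := by
    rw [norm_sub_sq_real, norm_smul, hu, hv, inner_smul_right, real_inner_comm u v, Real.norm_eq_abs, mul_one, sq_abs]
    ring
  unfold pr
  rw [norm_smul, norm_inv, Real.norm_eq_abs, abs_of_nonneg (sqrt_nonneg _), ← h2, sqrt_sq (norm_nonneg _)]
  apply inv_mul_cancel₀
  intro h3
  rw [h3] at h2
  norm_num at h2
  linarith

theorem cos_tau {v u : E} : cos (tau v u) = √(1 - (inner ℝ v u) ^ 2) := by
  unfold tau; rw [cos_arcsin, sq_abs]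

/-- inner products with vectors orthogonal to `v` -/
theorem pr_inner {v u w : E} (h : |inner ℝ v u| < 1) (hw : inner ℝ v w = 0) :
    inner ℝ u w = cos (tau v u) * inner ℝ (pr v u) w := by
  conv_lhs => rw [pr_decomp h]
  rw [inner_add_left, inner_smul_left, inner_smul_left, hw, cos_tau]
  simp

theorem tau_pr {v u w : E} (hv : ‖v‖ = 1) (hu : ‖u‖ = 1) (hwn : ‖w‖ = 1) (h : |inner ℝ v u| < 1) (hw : inner ℝ v w = 0) :
    tau u w = sf (cos (tau v u)) (tau (pr v u) w) := by
  unfold tau at *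
  rw [sf_of_sin (abs_nonneg _)]
  · congr 1
    have := pr_inner h hw
    unfold tau at this
    rw [this, abs_mul, abs_of_nonneg (cos_nn (arcsin_nonneg.2 (abs_nonneg _)) (arcsin_le_pi_div_two _))]
  · have := abs_real_inner_le_norm (pr v u) w
    rwa [pr_norm hv hu h, hwn, one_mul] at this

/-- two orthogonal vectors: the projections -/
theorem pr_two {v u w : E} (hu : |inner ℝ v u| < 1) (hw : |inner ℝ v w| < 1) (hv : ‖v‖ = 1)
    (huw : inner ℝ u w = 0) :
    |inner ℝ (pr v u) (pr v w)| = tan (tau v u) * tan (tau v w) := by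
  have hcu : 0 < cos (tau v u) := by
    rw [cos_tau]; apply sqrt_pos.2
    have := (sq_lt_one_iff_abs_lt_one _).2 hu
    linarith
  have hcw : 0 < cos (tau v w) := by
    rw [cos_tau]; apply sqrt_pos.2
    have := (sq_lt_one_iff_abs_lt_one _).2 hw
    linarith
  have hsu : sin (tau v u) = |inner ℝ v u| := by
    unfold tau; rw [sin_arcsin (by linarith [abs_nonneg (inner ℝ v u)]) hu.le]
  have hsw : sin (tau v w) = |inner ℝ v w| := by
    unfold tau; rw [sin_arcsin (by linarith [abs_nonneg (inner ℝ v w)]) hw.le]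
  have h1 : inner ℝ v (pr v w) = 0 := pr_perp hv
  have h2 : inner ℝ v (pr v u) = 0 := pr_perp hv
  have h3 : inner ℝ u w = (inner ℝ v u) * (inner ℝ v w) +
      cos (tau v u) * cos (tau v w) * inner ℝ (pr v u) (pr v w) := by
    conv_lhs => rw [pr_decomp hw]
    rw [inner_add_right, inner_smul_right, inner_smul_right, ← cos_tau, pr_inner hu h1, real_inner_comm u v]
    ring
  rw [huw] at h3
  have h4 : inner ℝ (pr v u) (pr v w) = -((inner ℝ v u) * (inner ℝ v w)) / (cos (tau v u) * cos (tau v w)) := by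
    rw [eq_div_iff (mul_pos hcu hcw).ne']; linarith
  rw [h4, abs_div, abs_neg, abs_mul, abs_of_pos (mul_pos hcu hcw), tan_eq_sin_div_cos, tan_eq_sin_div_cos, hsu, hsw]
  field_simp

variable [FiniteDimensional ℝ E] {n k : ℕ} {x : ℕ → E} {S : Finset ℕ}

theorem Ctx.DD_OO (h : Ctx n k x S) {v i : ℕ} (hv : v ∈ S) (hi : i ∈ NN x S v) (y : ℕ → E) (hyi : y i = pr (x v) (x i))
    (hyO : ∀ j ∈ OO x S v, y j = x j) :
    π / 2 - hyp (max 0 (π / 2 - DD y (OO x S v) i)) (tau (x v) (x i)) ≤ DD x (OO x S v) i := by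
  obtain ⟨hiS, hiv, hin⟩ := mem_NN.1 hi
  have hlt := h.abs_lt_one hv hiS hiv.symm
  have hne : ∀ j ∈ OO x S v, i ≠ j := by
    intro j hj hij
    exact hin (by rw [hij]; exact (mem_OO.1 hj).2.2)
  rw [← sf_eq]
  have hc0 : 0 ≤ cos (tau (x v) (x i)) := cos_nn (tau_nonneg _ _) (tau_le _ _)
  have h1 := sf_sum hc0 (cos_le_one _) (OO x S v) (fun j => ee y i j) (fun j _ => ee_nonneg y i j)
  refine h1.trans (le_of_eq ?_)
  unfold DD
  refine Finset.sum_congr rfl fun j hj => ?_
  rw [ee_of_ne _ (hne j hj), ee_of_ne _ (hne j hj), hyi, hyO j hj,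
    ← tau_pr (h.isMin.unit v) (h.isMin.unit i) (h.isMin.unit j) hlt (mem_OO.1 hj).2.2]

theorem Ctx.ne_two (h : Ctx n (k + 1) x S) (hP0 : P n k) (hP1 : P n (k + 1)) {v : ℕ} (hv : v ∈ S) :
    (NN x S v).card ≠ 2 := by
  intro hcard
  obtain ⟨i, j, hij, hNN⟩ := Finset.card_eq_two.1 hcard
  have hi : i ∈ NN x S v := by rw [hNN]; simp
  have hj : j ∈ NN x S v := by rw [hNN]; simp
  obtain ⟨hiS, hiv, hin⟩ := mem_NN.1 hi
  obtain ⟨hjS, hjv, hjn⟩ := mem_NN.1 hj
  have horth : inner ℝ (x i) (x j) = 0 := by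
    obtain ⟨l, hl, hli, hl0⟩ := h.partner hv hi
    rw [hNN] at hl
    simp only [Finset.mem_insert, Finset.mem_singleton] at hl
    rcases hl with hl | hl
    · exact absurd hl hli
    · rw [hl] at hl0; exact hl0
  obtain ⟨O, hO⟩ : ∃ O, O = OO x S v := ⟨_, rfl⟩
  have hOp : ∀ m ∈ O, inner ℝ (x v) (x m) = 0 := by
    intro m hm; rw [hO] at hm; exact (mem_OO.1 hm).2.2
  have hiO : i ∉ O := fun h1 => hin (hOp i h1)
  have hjO : j ∉ O := fun h1 => hjn (hOp j h1)
  have hvO : v ∉ O := by rw [hO]; exact v_notin_OO v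
  have hjO' : i ∉ insert j O := by
    rw [Finset.mem_insert]; push Not; exact ⟨hij, hiO⟩
  have hvO' : v ∉ insert i (insert j O) := by
    rw [Finset.mem_insert, Finset.mem_insert]; push Not; exact ⟨hiv.symm, hjv.symm, hvO⟩
  have hSs : S = insert v (insert i (insert j O)) := by
    rw [← split_S (x := x) hv, hNN, ← hO]
    congr 1
    ext m; simp only [Finset.mem_union, Finset.mem_insert, Finset.mem_singleton]; tauto
  have hcO : O.card = n + k := by
    have h1 := h.card
    rw [hSs, Finset.card_insert_of_notMem hvO', Finset.card_insert_of_notMem hjO', Finset.card_insert_of_notMem hjO] at h1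
    omega
  have hli := h.abs_lt_one hv hiS hiv.symm
  have hlj := h.abs_lt_one hv hjS hjv.symm
  obtain ⟨p, hp⟩ : ∃ p, p = tau (x v) (x i) := ⟨_, rfl⟩
  obtain ⟨q, hq⟩ : ∃ q, q = tau (x v) (x j) := ⟨_, rfl⟩
  -- the family of projections
  let y : ℕ → E := fun m => if m = i then pr (x v) (x i) else if m = j then pr (x v) (x j) else x m
  have hyi : y i = pr (x v) (x i) := by simp [y]
  have hyj : y j = pr (x v) (x j) := by simp [y, hij.symm]
  have hyO : ∀ m ∈ O, y m = x m := by
    intro m hm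
    have h1 : m ≠ i := fun h2 => hiO (h2 ▸ hm)
    have h2 : m ≠ j := fun h2 => hjO (h2 ▸ hm)
    simp [y, h1, h2]
  have hyn : ∀ m, ‖y m‖ = 1 := by
    intro m
    simp only [y]
    split_ifs
    · exact pr_norm (h.isMin.unit v) (h.isMin.unit i) hli
    · exact pr_norm (h.isMin.unit v) (h.isMin.unit j) hlj
    · exact h.isMin.unit m
  have hyv : ∀ m ∈ insert i (insert j O), inner ℝ (x v) (y m) = 0 := by
    intro m hm
    rw [Finset.mem_insert, Finset.mem_insert] at hm
    rcases hm with hm | hm | hm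
    · rw [hm, hyi]; exact pr_perp (h.isMin.unit v)
    · rw [hm, hyj]; exact pr_perp (h.isMin.unit v)
    · rw [hyO m hm]; exact hOp m hm
  -- the bounds in the orthogonal complement
  have b0 := perp_bound hP0 h.dim (h.isMin.unit v) O y (fun m _ => hyn m)
    (fun m hm => hyv m (Finset.mem_insert_of_mem (Finset.mem_insert_of_mem hm))) hcO
  have b1 := perp_bound hP1 h.dim (h.isMin.unit v) (insert i O) y (fun m _ => hyn m)
    (fun m hm => hyv m (by
      rw [Finset.mem_insert] at hm ⊢
      rcases hm with hm | hm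
      · exact Or.inl hm
      · exact Or.inr (Finset.mem_insert_of_mem hm))) (by rw [Finset.card_insert_of_notMem hiO, hcO]; omega)
  have b2 := perp_bound hP1 h.dim (h.isMin.unit v) (insert j O) y (fun m _ => hyn m)
    (fun m hm => hyv m (Finset.mem_insert_of_mem hm)) (by rw [Finset.card_insert_of_notMem hjO, hcO]; omega)
  have b3 := perp_bound h.perp h.dim (h.isMin.unit v) (insert i (insert j O)) y (fun m _ => hyn m)
    hyv (by rw [Finset.card_insert_of_notMem hjO', Finset.card_insert_of_notMem hjO, hcO]; omega)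
  rw [T2_insert y hiO] at b1
  rw [T2_insert y hjO] at b2
  rw [T2_insert y hjO', T2_insert y hjO, DD_insert y hjO, ee_of_ne y hij, hyi, hyj] at b3
  obtain ⟨w, hw⟩ : ∃ w, w = tau (pr (x v) (x i)) (pr (x v) (x j)) := ⟨_, rfl⟩
  have hw0 : 0 ≤ w := by rw [hw]; exact tau_nonneg _ _
  have hw1 : w ≤ π / 2 := by rw [hw]; exact tau_le _ _
  have hws : sin w = tan p * tan q := by
    rw [hw, hp, hq, ← pr_two hli hlj (h.isMin.unit v) horth]
    unfold tau
    rw [sin_arcsin]
    · linarith [abs_nonneg (inner ℝ (pr (x v) (x i)) (pr (x v) (x j)))]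
    · have h1 := abs_real_inner_le_norm (pr (x v) (x i)) (pr (x v) (x j))
      rwa [pr_norm (h.isMin.unit v) (h.isMin.unit i) hli, pr_norm (h.isMin.unit v) (h.isMin.unit j) hlj, one_mul] at h1
  have hp0 : 0 < p := by rw [hp]; exact tau_pos hin
  have hq0 : 0 < q := by rw [hq]; exact tau_pos hjn
  -- the degree of v
  have hDv : DD x S v = p + q := by
    rw [hSs, DD_insert_self x hvO', DD_insert x hjO', DD_insert x hjO, ee_of_ne x hiv.symm, ee_of_ne x hjv.symm, ← hp, ← hq]
    have : DD x O v = 0 := by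
      unfold DD
      refine Finset.sum_eq_zero fun m hm => ?_
      rw [ee_of_ne x (fun h1 : v = m => hvO (by rw [h1]; exact hm)), tau_zero_iff]
      exact hOp m hm
    rw [this]; ring
  have hpq : p + q < π / 2 := by rw [← hDv]; exact h.D_lt hv
  -- values at i and j
  have hO' := hO
  have di : π / 2 - hyp (max 0 (π / 2 - DD y O i)) p ≤ DD x O i := by
    rw [hO, hp]; exact h.DD_OO hv hi y hyi (by rw [← hO]; exact hyO)
  have dj : π / 2 - hyp (max 0 (π / 2 - DD y O j)) q ≤ DD x O j := by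
    rw [hO, hq]; exact h.DD_OO hv hj y hyj (by rw [← hO]; exact hyO)
  have htot : T2 x S = T2 x O + 2 * DD x O j + 2 * DD x O i + 2 * (p + q) := by
    conv_lhs => rw [hSs]
    rw [T2_insert x hvO', ← DD_insert_self x hvO', ← hSs, hDv, T2_insert x hjO', T2_insert x hjO, DD_insert x hjO,
      ee_of_ne x hij, (tau_zero_iff _ _).2 horth]
    ring
  have hTO : T2 y O = T2 x O := T2_congr hyO
  rw [hTO] at b0 b1 b2 b3
  rw [← hw] at b3
  have hRi := DD_nonneg y O i
  have hRj := DD_nonneg y O j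
  have hpi := pi_pos
  push_cast at b1 b2 b3
  have hG := G_ineq (p := p) (q := q) (w := w) (r1 := max 0 (π / 2 - DD y O i)) (r2 := max 0 (π / 2 - DD y O j))
    (a := (T2 x O - k * π) / 2) hp0 hq0 hpq hw0 hw1 hws (le_max_left _ _) (max_le (by linarith) (by linarith))
    (le_max_left _ _) (max_le (by linarith) (by linarith))
    (max_le (by linarith) (by linarith)) (max_le (by linarith) (by linarith)) (by
      rcases le_total 0 (π / 2 - DD y O i) with h1 | h1 <;> rcases le_total 0 (π / 2 - DD y O j) with h2 | h2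
      · rw [max_eq_right h1, max_eq_right h2]; linarith
      · rw [max_eq_right h1, max_eq_left h2]; linarith
      · rw [max_eq_left h1, max_eq_right h2]; linarith
      · rw [max_eq_left h1, max_eq_left h2]; linarith)
  have hs := h.small
  push_cast at hs
  linarith

end Pool.Agent.H88FT
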